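import Mathlib

set_option autoImplicit false

open MeasureTheory Filter Topology Set Metric Real

namespace Pool.Agent.Results.MP_5c297c_an.NotJessen

/-- The imaginary part of a point of `ℂⁿ`, coordinate by coordinate. -/
def imPart {n : ℕ} (z : Fin n → ℂ) : Fin n → ℝ := fun j => (z j).im

/-- The tube `T_E`, the set of `z` in `ℂⁿ` with `Im z` in `E`. -/
def tube {n : ℕ} (E : Set (Fin n → ℝ)) : Set (Fin n → ℂ) := {z | imPart z ∈ E}

/-- The supremum of `|g z|` over `z` in the tube `T_E`, an extended nonnegative real. -/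
noncomputable def tubeNorm {n : ℕ} (g : (Fin n → ℂ) → ℂ) (E : Set (Fin n → ℝ)) : ENNReal :=
  ⨆ z ∈ tube E, ‖g z‖ₑ

/-- The open cube `Q_l(a)`. -/
def cube {n : ℕ} (l : ℝ) (a : Fin n → ℝ) : Set (Fin n → ℝ) := {x | ∀ j, |x j - a j| < l}

/-- `f` is holomorphic and almost periodic in the tube `T_G`. -/
def IsHolAP {n : ℕ} (G : Set (Fin n → ℝ)) (f : (Fin n → ℂ) → ℂ) : Prop :=
  DifferentiableOn ℂ f (tube G) ∧
    ∀ ε : ℝ, 0 < ε → ∀ E : Set (Fin n → ℝ), IsCompact (closure E) → closure E ⊆ G →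
      ∃ l : ℝ, 0 < l ∧ ∀ a : Fin n → ℝ, ∃ h ∈ cube l a,
        tubeNorm (fun z => f (fun j => z j + (h j : ℂ)) - f z) E < ENNReal.ofReal ε

/-- `φ` is, on `G`, the Jessen function of some holomorphic almost periodic `f` in `T_G`, `f` not
identically zero: for every `y` in `G` the mean of `log |f (x + i y)|` over the cube `Q_t(0)`
tends to `φ y` as `t` tends to infinity. -/
def IsJessen {n : ℕ} (G : Set (Fin n → ℝ)) (φ : (Fin n → ℝ) → ℝ) : Prop :=
  ∃ f : (Fin n → ℂ) → ℂ, IsHolAP G f ∧ (∃ z ∈ tube G, f z ≠ 0) ∧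
    ∀ y ∈ G, Tendsto (fun t : ℝ => 1 / (2 * t) ^ n *
      ∫ x in cube t 0, Real.log ‖f (fun j => (x j : ℂ) + (y j : ℂ) * Complex.I)‖) atTop (𝓝 (φ y))

/-- logarithmic deficit, with value `⊤` at zeros -/
noncomputable def dfc (M : ℝ) (u : ℂ) : ENNReal := if u = 0 then ⊤ else ENNReal.ofReal (M - Real.log ‖u‖)

/-- logarithmic deficit, with the real-logarithm convention at zeros -/
noncomputable def dfc0 (M : ℝ) (u : ℂ) : ENNReal := ENNReal.ofReal (M - Real.log ‖u‖)

lemma dfc0_le (M : ℝ) (u : ℂ) : dfc0 M u ≤ dfc M u := by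
  unfold dfc0 dfc
  split_ifs with h
  · exact le_top
  · exact le_rfl

lemma measurable_dfc0 (M : ℝ) : Measurable (dfc0 M) := by
  unfold dfc0; fun_prop

lemma measurable_dfc (M : ℝ) : Measurable (dfc M) := by
  unfold dfc
  refine Measurable.ite (measurableSet_singleton 0) measurable_const ?_
  fun_prop

lemma jensen_ineq {g : ℂ → ℂ} {r : ℝ} (hr : 0 < r) (hg : AnalyticOnNhd ℂ g (closedBall 0 r)) (h0 : g 0 ≠ 0) :
    Real.log ‖g 0‖ ≤ circleAverage (Real.log ‖g ·‖) 0 r := by
  have hr' : |r| = r := abs_of_pos hr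
  have h := AnalyticOnNhd.circleAverage_log_norm (c := 0) (R := r) hr.ne' (by rwa [hr']) h0
  rw [h, hr']
  have : 0 ≤ ∑ᶠ u, (MeromorphicOn.divisor g (closedBall 0 r) u : ℝ) * Real.log (r * ‖(0:ℂ) - u‖⁻¹) := by
    refine finsum_nonneg fun u => ?_
    by_cases hu : u ∈ closedBall (0:ℂ) r
    · have h1 : 0 ≤ MeromorphicOn.divisor g (closedBall 0 r) u :=
        (MeromorphicOn.AnalyticOnNhd.divisor_nonneg hg) u
      refine mul_nonneg (by exact_mod_cast h1) ?_
      by_cases hu0 : u = 0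
      · subst hu0; simp
      refine Real.log_nonneg ?_
      rw [zero_sub, norm_neg]
      have hu1 : ‖u‖ ≤ r := by simpa using hu
      have hu2 : 0 < ‖u‖ := norm_pos_iff.2 hu0
      rw [← div_eq_mul_inv, le_div_iff₀ hu2]
      linarith
    · rw [Function.locallyFinsuppWithin.apply_eq_zero_of_notMem _ hu]; simp
  linarith

lemma ae_circle_ne_zero {g : ℂ → ℂ} {r : ℝ} (hr : 0 < r) (hg : AnalyticOnNhd ℂ g (closedBall 0 r)) (h0 : g 0 ≠ 0) :
    ∀ᵐ θ ∂(volume.restrict (Ioc 0 (2 * π))), g (circleMap 0 r θ) ≠ 0 := by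
  have h1 : ∀ᶠ x in codiscreteWithin (closedBall (0:ℂ) r), g x ≠ 0 := by
    rcases hg.eqOn_zero_or_eventually_ne_zero_of_preconnected (convex_closedBall _ _).isPreconnected with h | h
    · exact absurd (h (mem_closedBall_self hr.le)) h0
    · exact h
  have h2 : ∀ᶠ x in codiscreteWithin (sphere (0:ℂ) |r|), g x ≠ 0 := by
    rw [abs_of_pos hr]
    exact codiscreteWithin_mono sphere_subset_closedBall h1
  have h3 := circleMap_preimage_codiscrete (c := 0) hr.ne' h2
  exact ae_restrict_le_codiscreteWithin measurableSet_Ioc (codiscreteWithin_mono (subset_univ _) h3)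

lemma jensen_lintegral {g : ℂ → ℂ} {r M : ℝ} (hr : 0 < r) (hg : AnalyticOnNhd ℂ g (closedBall 0 r))
    (hM0 : 0 ≤ M) (hM : ∀ w ∈ closedBall (0:ℂ) r, ‖g w‖ ≤ Real.exp M) :
    ∫⁻ θ in Ioc 0 (2 * π), dfc M (g (circleMap 0 r θ)) ≤ ENNReal.ofReal (2 * π) * dfc M (g 0) := by
  have hpi : 0 < 2 * π := by positivity
  by_cases h0 : g 0 = 0
  · have : dfc M (g 0) = ⊤ := by simp [dfc, h0]
    rw [this, ENNReal.mul_top (by simpa using hpi)]
    exact le_top
  have hae := ae_circle_ne_zero hr hg h0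
  have e1 : ∫⁻ θ in Ioc 0 (2 * π), dfc M (g (circleMap 0 r θ))
      = ∫⁻ θ in Ioc 0 (2 * π), ENNReal.ofReal (M - Real.log ‖g (circleMap 0 r θ)‖) := by
    refine lintegral_congr_ae ?_
    filter_upwards [hae] with θ hθ
    simp [dfc, hθ]
  have hint : CircleIntegrable (Real.log ‖g ·‖) 0 r := by
    refine MeromorphicOn.circleIntegrable_log_norm ?_
    rw [abs_of_pos hr]
    exact (hg.mono sphere_subset_closedBall).meromorphicOn
  have hint2 : IntegrableOn (fun θ => Real.log ‖g (circleMap 0 r θ)‖) (Ioc 0 (2 * π)) := by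
    have := hint
    rw [CircleIntegrable, intervalIntegrable_iff_integrableOn_Ioc_of_le hpi.le] at this
    exact this
  have hint3 : IntegrableOn (fun θ => M - Real.log ‖g (circleMap 0 r θ)‖) (Ioc 0 (2 * π)) := by
    refine Integrable.sub ?_ hint2
    exact integrable_const M
  have hnn : ∀ θ, 0 ≤ M - Real.log ‖g (circleMap 0 r θ)‖ := by
    intro θ
    have hmem : circleMap 0 r θ ∈ closedBall (0:ℂ) r := circleMap_mem_closedBall 0 hr.le θ
    have := hM _ hmem
    by_cases hz : g (circleMap 0 r θ) = 0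
    · simp [hz, hM0]
    · have h1 : Real.log ‖g (circleMap 0 r θ)‖ ≤ M := by
        rw [Real.log_le_iff_le_exp (norm_pos_iff.2 hz)]
        exact this
      linarith
  rw [e1, ← ofReal_integral_eq_lintegral_ofReal hint3 (ae_of_all _ hnn)]
  have e2 : ∫ θ in Ioc 0 (2 * π), (M - Real.log ‖g (circleMap 0 r θ)‖)
      = 2 * π * (M - circleAverage (Real.log ‖g ·‖) 0 r) := by
    rw [integral_sub (integrable_const M) hint2, circleAverage_def,
      intervalIntegral.integral_of_le hpi.le]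
    simp only [integral_const, MeasurableSet.univ, measureReal_restrict_apply, univ_inter, smul_eq_mul]
    rw [Real.volume_real_Ioc_of_le hpi.le, mul_sub, ← mul_assoc (2 * π) (2 * π)⁻¹, mul_inv_cancel₀ hpi.ne']
    ring
  have e3 : dfc M (g 0) = ENNReal.ofReal (M - Real.log ‖g 0‖) := by simp [dfc, h0]
  rw [e2, e3, ← ENNReal.ofReal_mul hpi.le]
  refine ENNReal.ofReal_le_ofReal ?_
  have := jensen_ineq hr hg h0
  exact mul_le_mul_of_nonneg_left (by linarith) hpi.le



lemma harnack {f : ℂ → ℝ} {R : ℝ} {w : ℂ} (hw : w ∈ ball (0:ℂ) R)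
    (hf : InnerProductSpace.HarmonicOnNhd f (closedBall 0 R)) (hnn : ∀ z ∈ closedBall (0:ℂ) R, 0 ≤ f z) :
    f w ≤ (R + ‖w‖) / (R - ‖w‖) * f 0 := by
  have hR : 0 < R := pos_of_mem_ball hw
  have hwR : ‖w‖ < R := by simpa using hw
  have h1 := InnerProductSpace.HarmonicOnNhd.circleAverage_re_herglotzRieszKernel_smul hf hw
  have h2 : circleAverage f 0 R = f 0 :=
    InnerProductSpace.HarmonicOnNhd.circleAverage_eq (by rwa [abs_of_pos hR])
  have hcont : ContinuousOn f (sphere 0 R) := hf.continuousOn.mono sphere_subset_closedBall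
  have hne : ∀ z ∈ sphere (0:ℂ) R, z - 0 - (w - 0) ≠ 0 := by
    intro z hz h
    have : z = w := by
      have := sub_eq_zero.1 h
      simpa using this
    subst this
    have : ‖z‖ = R := by simpa using hz
    linarith
  have hcont2 : ContinuousOn (Complex.re ∘ herglotzRieszKernel 0 w) (sphere 0 R) := by
    rw [herglotzRieszKernel_fun_def]
    refine Complex.continuous_re.comp_continuousOn ?_
    refine ContinuousOn.div (by fun_prop) (by fun_prop) hne
  have hi1 : CircleIntegrable ((Complex.re ∘ herglotzRieszKernel 0 w) • f) 0 R := by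
    refine ContinuousOn.circleIntegrable' ?_
    rw [abs_of_pos hR]
    exact hcont2.smul hcont
  have hi2 : CircleIntegrable (((R + ‖w‖) / (R - ‖w‖)) • f) 0 R := by
    refine ContinuousOn.circleIntegrable' ?_
    rw [abs_of_pos hR]
    exact hcont.const_smul _
  rw [← h1, ← h2, ← smul_eq_mul, ← circleAverage_smul]
  refine circleAverage_mono hi1 hi2 ?_
  intro z hz
  rw [abs_of_pos hR] at hz
  simp only [Pi.smul_apply', Function.comp_apply, smul_eq_mul, Pi.smul_apply]
  refine mul_le_mul_of_nonneg_right ?_ (hnn z (sphere_subset_closedBall hz))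
  have := re_herglotzRieszKernel_le hz hw
  rw [herglotzRieszKernel_def]
  simpa using this


lemma harmonic_log {g : ℂ → ℂ} {r : ℝ} (hg : AnalyticOnNhd ℂ g (closedBall 0 r))
    (hz : ∀ w ∈ closedBall (0:ℂ) r, g w ≠ 0) (M : ℝ) :
    InnerProductSpace.HarmonicOnNhd (fun w => M - Real.log ‖g w‖) (closedBall 0 r) := by
  intro x hx
  have h1 := (hg x hx).harmonicAt_log_norm (hz x hx)
  have h2 : InnerProductSpace.HarmonicAt (fun _ : ℂ => M) x := InnerProductSpace.harmonicAt_const M
  exact h2.sub h1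

lemma harm_lintegral {g : ℂ → ℂ} {r M : ℝ} (hr : 0 < r) (hg : AnalyticOnNhd ℂ g (closedBall 0 r))
    (hM : ∀ w ∈ closedBall (0:ℂ) r, ‖g w‖ ≤ Real.exp M) (hz : ∀ w ∈ closedBall (0:ℂ) r, g w ≠ 0) :
    ENNReal.ofReal (2 * π) * dfc0 M (g 0) = ∫⁻ θ in Ioc 0 (2 * π), dfc0 M (g (circleMap 0 r θ)) := by
  have hpi : 0 < 2 * π := by positivity
  have hcont : ContinuousOn (fun w => M - Real.log ‖g w‖) (sphere 0 |r|) := by
    rw [abs_of_pos hr]
    exact (harmonic_log hg hz M).continuousOn.mono sphere_subset_closedBall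
  have hint : CircleIntegrable (fun w => M - Real.log ‖g w‖) 0 r := hcont.circleIntegrable'
  have hint3 : IntegrableOn (fun θ => M - Real.log ‖g (circleMap 0 r θ)‖) (Ioc 0 (2 * π)) := by
    have := hint
    rw [CircleIntegrable, intervalIntegrable_iff_integrableOn_Ioc_of_le hpi.le] at this
    exact this
  have hnn : ∀ θ, 0 ≤ M - Real.log ‖g (circleMap 0 r θ)‖ := by
    intro θ
    have hmem : circleMap 0 r θ ∈ closedBall (0:ℂ) r := circleMap_mem_closedBall 0 hr.le θ
    have h1 : Real.log ‖g (circleMap 0 r θ)‖ ≤ M := by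
      rw [Real.log_le_iff_le_exp (norm_pos_iff.2 (hz _ hmem))]
      exact hM _ hmem
    linarith
  unfold dfc0
  rw [← ofReal_integral_eq_lintegral_ofReal hint3 (ae_of_all _ hnn), ← ENNReal.ofReal_mul hpi.le]
  congr 1
  have h2 : circleAverage (fun w => M - Real.log ‖g w‖) 0 r = M - Real.log ‖g 0‖ :=
    InnerProductSpace.HarmonicOnNhd.circleAverage_eq (by rw [abs_of_pos hr]; exact harmonic_log hg hz M)
  rw [← h2, circleAverage_def, intervalIntegral.integral_of_le hpi.le, smul_eq_mul, ← mul_assoc,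
    mul_inv_cancel₀ hpi.ne', one_mul]

lemma harnack_dfc0 {g : ℂ → ℂ} {r M : ℝ} (hr : 0 < r) (hg : AnalyticOnNhd ℂ g (closedBall 0 (2 * r)))
    (hM : ∀ w ∈ closedBall (0:ℂ) (2 * r), ‖g w‖ ≤ Real.exp M) (hz : ∀ w ∈ closedBall (0:ℂ) (2 * r), g w ≠ 0)
    {w : ℂ} (hw : ‖w‖ = r) : dfc0 M (g w) ≤ 3 * dfc0 M (g 0) := by
  have hw' : w ∈ ball (0:ℂ) (2 * r) := by
    rw [mem_ball_zero_iff]; linarith
  have hnn : ∀ z ∈ closedBall (0:ℂ) (2 * r), 0 ≤ M - Real.log ‖g z‖ := by
    intro z hz'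
    have h1 : Real.log ‖g z‖ ≤ M := by
      rw [Real.log_le_iff_le_exp (norm_pos_iff.2 (hz _ hz'))]
      exact hM _ hz'
    linarith
  have h := harnack hw' (harmonic_log hg hz M) hnn
  rw [hw, show (2 * r + r) / (2 * r - r) = 3 by field_simp; ring] at h
  unfold dfc0
  rw [show (3 : ENNReal) = ENNReal.ofReal 3 by simp, ← ENNReal.ofReal_mul (by norm_num)]
  exact ENNReal.ofReal_le_ofReal h



/-- The point `x + i y` of `ℂⁿ`. -/
noncomputable def cpt {n : ℕ} (x y : Fin n → ℝ) : Fin n → ℂ := fun j => (x j : ℂ) + (y j : ℂ) * Complex.I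

variable {n : ℕ}

def rePart (z : Fin n → ℂ) : Fin n → ℝ := fun j => (z j).re

lemma imPart_cpt (x y : Fin n → ℝ) : imPart (cpt x y) = y := by
  funext j; simp [imPart, cpt]

lemma rePart_cpt (x y : Fin n → ℝ) : rePart (cpt x y) = x := by
  funext j; simp [rePart, cpt]

lemma cpt_eta (z : Fin n → ℂ) : cpt (rePart z) (imPart z) = z := by
  funext j; simp [rePart, imPart, cpt]

lemma cpt_add (x y x' y' : Fin n → ℝ) : cpt x y + cpt x' y' = cpt (x + x') (y + y') := by
  funext j; simp [cpt]; ring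

lemma imPart_add (z w : Fin n → ℂ) : imPart (z + w) = imPart z + imPart w := by
  funext j; simp [imPart]

lemma rePart_add (z w : Fin n → ℂ) : rePart (z + w) = rePart z + rePart w := by
  funext j; simp [rePart]

lemma imPart_sub (z w : Fin n → ℂ) : imPart (z - w) = imPart z - imPart w := by
  funext j; simp [imPart]

lemma norm_imPart_le (z : Fin n → ℂ) : ‖imPart z‖ ≤ ‖z‖ := by
  rw [pi_norm_le_iff_of_nonneg (norm_nonneg z)]
  intro j
  exact (Complex.abs_im_le_norm (z j)).trans (norm_le_pi_norm z j)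

lemma norm_rePart_le (z : Fin n → ℂ) : ‖rePart z‖ ≤ ‖z‖ := by
  rw [pi_norm_le_iff_of_nonneg (norm_nonneg z)]
  intro j
  exact (Complex.abs_re_le_norm (z j)).trans (norm_le_pi_norm z j)

lemma norm_cpt_le (x y : Fin n → ℝ) : ‖cpt x y‖ ≤ ‖x‖ + ‖y‖ := by
  rw [pi_norm_le_iff_of_nonneg (by positivity)]
  intro j
  have h1 : ‖(x j : ℂ)‖ ≤ ‖x‖ := by rw [Complex.norm_real]; exact norm_le_pi_norm x j
  have h2 : ‖(y j : ℂ) * Complex.I‖ ≤ ‖y‖ := by
    rw [norm_mul, Complex.norm_I, mul_one, Complex.norm_real]; exact norm_le_pi_norm y j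
  exact (norm_add_le _ _).trans (add_le_add h1 h2)

lemma continuous_imPart : Continuous (imPart : (Fin n → ℂ) → (Fin n → ℝ)) := by
  unfold imPart; fun_prop

lemma continuous_rePart : Continuous (rePart : (Fin n → ℂ) → (Fin n → ℝ)) := by
  unfold rePart; fun_prop

lemma continuous_cpt : Continuous (fun p : (Fin n → ℝ) × (Fin n → ℝ) => cpt p.1 p.2) := by
  unfold cpt; fun_prop

lemma isOpen_tube {E : Set (Fin n → ℝ)} (hE : IsOpen E) : IsOpen (tube E) :=
  hE.preimage continuous_imPart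

lemma convex_tube {E : Set (Fin n → ℝ)} (hE : Convex ℝ E) : Convex ℝ (tube E) := by
  intro z hz w hw a b ha hb hab
  have : imPart (a • z + b • w) = a • imPart z + b • imPart w := by
    funext j; simp [imPart]
  show imPart (a • z + b • w) ∈ E
  rw [this]
  exact hE hz hw ha hb hab

lemma cube_eq_ball {l : ℝ} (hl : 0 < l) (a : Fin n → ℝ) : cube l a = ball a l := by
  ext x
  rw [mem_ball, dist_pi_lt_iff hl]
  rfl

lemma isOpen_cube (l : ℝ) (a : Fin n → ℝ) : IsOpen (cube l a) := by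
  have : cube l a = ⋂ j, {x : Fin n → ℝ | |x j - a j| < l} := by ext x; simp [cube]
  rw [this]
  refine isOpen_iInter_of_finite fun j => ?_
  exact isOpen_lt (by fun_prop) continuous_const

lemma measurableSet_cube (l : ℝ) (a : Fin n → ℝ) : MeasurableSet (cube l a) := (isOpen_cube l a).measurableSet

lemma volume_cube {l : ℝ} (hl : 0 < l) (a : Fin n → ℝ) : volume (cube l a) = ENNReal.ofReal ((2 * l) ^ n) := by
  rw [cube_eq_ball hl, Real.volume_pi_ball a hl, Fintype.card_fin]

/-- restriction to a complex line is differentiable -/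
lemma line_analytic {U : Set (Fin n → ℂ)} (hU : IsOpen U) {f : (Fin n → ℂ) → ℂ} (hf : DifferentiableOn ℂ f U)
    (z c : Fin n → ℂ) : AnalyticOnNhd ℂ (fun w : ℂ => f (z + w • c)) {w : ℂ | z + w • c ∈ U} := by
  have hcont : Continuous (fun w : ℂ => z + w • c) := by fun_prop
  have hopen : IsOpen {w : ℂ | z + w • c ∈ U} := hU.preimage hcont
  refine DifferentiableOn.analyticOnNhd ?_ hopen
  intro w hw
  have h1 : DifferentiableAt ℂ f (z + w • c) := (hf _ hw).differentiableAt (hU.mem_nhds hw)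
  have h2 : DifferentiableAt ℂ (fun w : ℂ => z + w • c) w := by fun_prop
  exact (DifferentiableAt.comp w h1 h2).differentiableWithinAt

/-- identity theorem along a complex line inside a convex open set -/
lemma identity_line {U : Set (Fin n → ℂ)} (hU : IsOpen U) (hUc : Convex ℝ U) {f : (Fin n → ℂ) → ℂ}
    (hf : DifferentiableOn ℂ f U) {z c : Fin n → ℂ} (hz : z ∈ U) (hzc : z + c ∈ U)
    (h0 : ∀ᶠ w : ℂ in 𝓝 0, f (z + w • c) = 0) : f (z + c) = 0 := by
  have han := line_analytic hU hf z c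
  have hconv : Convex ℝ {w : ℂ | z + w • c ∈ U} := by
    intro w hw w' hw' a b ha hb hab
    have h1 := hUc hw hw' ha hb hab
    have e : a • (z + w • c) + b • (z + w' • c) = z + (a • w + b • w') • c := by
      funext j
      simp only [Pi.add_apply, Pi.smul_apply, smul_eq_mul, Complex.real_smul]
      have : (a : ℂ) + b = 1 := by exact_mod_cast hab
      linear_combination (z j) * this
    show z + (a • w + b • w') • c ∈ U
    rw [← e]; exact h1
  have h0mem : (0 : ℂ) ∈ {w : ℂ | z + w • c ∈ U} := by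
    show z + (0 : ℂ) • c ∈ U
    rw [zero_smul, add_zero]; exact hz
  have h1mem : (1 : ℂ) ∈ {w : ℂ | z + w • c ∈ U} := by
    show z + (1 : ℂ) • c ∈ U
    rw [one_smul]; exact hzc
  have := han.eqOn_zero_of_preconnected_of_eventuallyEq_zero hconv.isPreconnected h0mem h0 h1mem
  simpa using this

lemma exists_ne_zero_near {U : Set (Fin n → ℂ)} (hU : IsOpen U) (hUc : Convex ℝ U) {f : (Fin n → ℂ) → ℂ}
    (hf : DifferentiableOn ℂ f U) {z₁ : Fin n → ℂ} (hz₁ : z₁ ∈ U) (hf₁ : f z₁ ≠ 0)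
    {z : Fin n → ℂ} (hz : z ∈ U) {δ : ℝ} (hδ : 0 < δ) : ∃ z' ∈ ball z δ, f z' ≠ 0 := by
  by_contra hcon
  push Not at hcon
  apply hf₁
  have h := identity_line hU hUc hf (z := z) (c := z₁ - z) hz (by simpa using hz₁) ?_
  · simpa using h
  · have hcont : Continuous (fun w : ℂ => z + w • (z₁ - z)) := by fun_prop
    have : ∀ᶠ w : ℂ in 𝓝 0, z + w • (z₁ - z) ∈ ball z δ := by
      refine hcont.continuousAt.eventually_mem ?_
      simpa using ball_mem_nhds z hδ
    filter_upwards [this] with w hw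
    exact hcon _ hw


lemma measurePreserving_rot (θ : ℝ) :
    MeasurePreserving (fun z : Fin n → ℂ => circleMap 0 1 θ • z) volume volume := by
  have h : ∀ _ : Fin n, MeasurePreserving (fun w : ℂ => circleMap 0 1 θ * w) volume volume := by
    intro _
    have h1 := (rotation (Circle.exp θ)).measurePreserving
    have h2 : (fun w : ℂ => circleMap 0 1 θ * w) = rotation (Circle.exp θ) := by
      funext w
      rw [rotation_apply, Circle.coe_exp, circleMap]
      simp
    rw [h2]; exact h1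
  have h3 := volume_preserving_pi h
  exact h3

lemma lintegral_ball_lt_top {U : Set (Fin n → ℂ)} (hU : IsOpen U) {f : (Fin n → ℂ) → ℂ} (hfm : Measurable f)
    (hf : DifferentiableOn ℂ f U) {z₀ : Fin n → ℂ} {R M : ℝ} (hball : closedBall z₀ R ⊆ U)
    (hM0 : 0 ≤ M) (hM : ∀ z ∈ closedBall z₀ R, ‖f z‖ ≤ Real.exp M) (h0 : f z₀ ≠ 0) :
    ∫⁻ z in closedBall z₀ R, dfc M (f z) < ⊤ := by
  set D : (Fin n → ℂ) → ENNReal := fun z => dfc M (f z) with hD
  have hDm : Measurable D := (measurable_dfc M).comp hfm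
  have hpi : 0 < 2 * π := by positivity
  -- translate to the centre
  have e0 : ∫⁻ z in closedBall z₀ R, D z = ∫⁻ c in closedBall (0 : Fin n → ℂ) R, D (z₀ + c) := by
    rw [← lintegral_indicator measurableSet_closedBall, ← lintegral_indicator measurableSet_closedBall,
      ← lintegral_add_left_eq_self _ z₀]
    refine lintegral_congr fun c => ?_
    by_cases hc : c ∈ closedBall (0 : Fin n → ℂ) R
    · rw [indicator_of_mem hc, indicator_of_mem]
      simpa using hc
    · rw [indicator_of_notMem hc, indicator_of_notMem]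
      simpa using hc
  have erot : ∀ θ : ℝ, ∫⁻ c in closedBall (0 : Fin n → ℂ) R, D (z₀ + circleMap 0 1 θ • c)
      = ∫⁻ c in closedBall (0 : Fin n → ℂ) R, D (z₀ + c) := by
    intro θ
    have h1 := (measurePreserving_rot (n := n) θ).setLIntegral_comp_preimage
      (s := closedBall (0 : Fin n → ℂ) R) measurableSet_closedBall (f := fun c => D (z₀ + c)) (by fun_prop)
    rw [← h1]
    congr 2
    ext c
    simp only [mem_preimage, mem_closedBall_zero_iff, norm_smul]
    have : ‖circleMap 0 1 θ‖ = 1 := by simp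
    rw [this, one_mul]
  -- average over the rotations
  have hswap : ENNReal.ofReal (2 * π) * ∫⁻ z in closedBall z₀ R, D z
      ≤ ENNReal.ofReal (2 * π) * (D z₀ * volume (closedBall (0 : Fin n → ℂ) R)) := by
    calc ENNReal.ofReal (2 * π) * ∫⁻ z in closedBall z₀ R, D z
        = ∫⁻ θ in Ioc 0 (2 * π), ∫⁻ c in closedBall (0 : Fin n → ℂ) R, D (z₀ + circleMap 0 1 θ • c) := by
          simp_rw [erot]
          rw [lintegral_const, e0, Measure.restrict_apply_univ, Real.volume_Ioc, sub_zero, mul_comm]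
      _ = ∫⁻ c in closedBall (0 : Fin n → ℂ) R, ∫⁻ θ in Ioc 0 (2 * π), D (z₀ + circleMap 0 1 θ • c) := by
          refine lintegral_lintegral_swap ?_
          refine Measurable.aemeasurable ?_
          refine hDm.comp ?_
          have : Continuous (fun p : ℝ × (Fin n → ℂ) => z₀ + circleMap 0 1 p.1 • p.2) := by
            unfold circleMap; fun_prop
          exact this.measurable
      _ ≤ ∫⁻ c in closedBall (0 : Fin n → ℂ) R, ENNReal.ofReal (2 * π) * D z₀ := by
          refine setLIntegral_mono (by fun_prop) ?_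
          intro c hc
          have hcR : ‖c‖ ≤ R := by simpa using hc
          have hmem : ∀ w ∈ closedBall (0:ℂ) 1, z₀ + w • c ∈ closedBall z₀ R := by
            intro w hw
            rw [mem_closedBall, dist_eq_norm, add_sub_cancel_left, norm_smul]
            have hw1 : ‖w‖ ≤ 1 := by simpa using hw
            calc ‖w‖ * ‖c‖ ≤ 1 * R := mul_le_mul hw1 hcR (norm_nonneg _) zero_le_one
              _ = R := one_mul R
          have han : AnalyticOnNhd ℂ (fun w : ℂ => f (z₀ + w • c)) (closedBall 0 1) :=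
            (line_analytic hU hf z₀ c).mono fun w hw => hball (hmem w hw)
          have := jensen_lintegral (g := fun w : ℂ => f (z₀ + w • c)) one_pos han hM0
            (fun w hw => hM _ (hmem w hw))
          simpa [hD] using this
      _ = ENNReal.ofReal (2 * π) * (D z₀ * volume (closedBall (0 : Fin n → ℂ) R)) := by
          rw [lintegral_const, Measure.restrict_apply_univ, mul_assoc]
  have hfin : ENNReal.ofReal (2 * π) * (D z₀ * volume (closedBall (0 : Fin n → ℂ) R)) < ⊤ := by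
    refine ENNReal.mul_lt_top ENNReal.ofReal_lt_top (ENNReal.mul_lt_top ?_ measure_closedBall_lt_top)
    simp [hD, dfc, h0]
  have h1 := hswap.trans_lt hfin
  by_contra hcon
  rw [not_lt, top_le_iff] at hcon
  rw [hcon, ENNReal.mul_top (by simpa using hpi)] at h1
  exact lt_irrefl _ h1

lemma measurePreserving_cpt :
    MeasurePreserving (fun p : (Fin n → ℝ) × (Fin n → ℝ) => cpt p.1 p.2) volume volume := by
  have h1 := (volume_measurePreserving_arrowProdEquivProdArrow ℝ ℝ (Fin n)).symm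
  have h2 := volume_preserving_pi (fun _ : Fin n => Complex.volume_preserving_equiv_real_prod.symm)
  have h3 := h2.comp h1
  have e : (fun p : (Fin n → ℝ) × (Fin n → ℝ) => cpt p.1 p.2) =
      (fun (a : Fin n → ℝ × ℝ) (i : Fin n) => Complex.measurableEquivRealProd.symm (a i)) ∘
        (MeasurableEquiv.arrowProdEquivProdArrow ℝ ℝ (Fin n)).symm := by
    funext p j
    apply Complex.ext
    · simp [cpt, MeasurableEquiv.arrowProdEquivProdArrow, Equiv.arrowProdEquivProdArrow,
        Complex.measurableEquivRealProd]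
    · simp [cpt, MeasurableEquiv.arrowProdEquivProdArrow, Equiv.arrowProdEquivProdArrow,
        Complex.measurableEquivRealProd]
  rw [e]
  exact h3

/-- for generic heights the logarithmic deficit is locally integrable on the real slice -/
lemma exists_generic {G : Set (Fin n → ℝ)} (hG : IsOpen G) (hGc : Convex ℝ G)
    {f : (Fin n → ℂ) → ℂ} (hfm : Measurable f)
    (hf : DifferentiableOn ℂ f (tube G)) {z₁ : Fin n → ℂ} (hz₁ : z₁ ∈ tube G) (hf₁ : f z₁ ≠ 0)
    {M : ℝ} (hM0 : 0 ≤ M) {p : Fin n → ℝ} {ρ : ℝ} (hp : closedBall p ρ ⊆ G)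
    (hM : ∀ z ∈ tube (closedBall p ρ), ‖f z‖ ≤ Real.exp M)
    {y₀ : Fin n → ℝ} {δ : ℝ} (hδ : 0 < δ) (hy₀ : closedBall y₀ δ ⊆ ball p ρ) :
    ∃ y ∈ closedBall y₀ δ, ∀ t : ℝ, ∫⁻ x in cube t 0, dfc M (f (cpt x y)) < ⊤ := by
  set D : (Fin n → ℂ) → ENNReal := fun z => dfc M (f z) with hD
  have hDm : Measurable D := (measurable_dfc M).comp hfm
  have hUo := isOpen_tube hG
  have hUc := convex_tube hGc
  have hsub : tube (ball p ρ) ⊆ tube G := fun z hz => hp (ball_subset_closedBall hz)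
  -- local finiteness
  have hloc : ∀ z ∈ tube (ball p ρ), (volume.withDensity D).FiniteAtFilter (𝓝 z) := by
    intro z hz
    obtain ⟨ε, hε, hεs⟩ := Metric.isOpen_iff.1 (isOpen_tube (isOpen_ball (x := p) (ε := ρ))) z hz
    obtain ⟨z', hz', hne⟩ := exists_ne_zero_near hUo hUc hf hz₁ hf₁ (hsub hz) (δ := ε / 4) (by linarith)
    have hcb : closedBall z' (ε / 2) ⊆ tube (ball p ρ) := by
      intro u hu
      apply hεs
      rw [mem_ball] at hz' ⊢
      rw [mem_closedBall] at hu
      have := dist_triangle u z' z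
      linarith
    have h1 := lintegral_ball_lt_top hUo hfm hf (hcb.trans hsub) hM0
      (fun u hu => hM u (ball_subset_closedBall (hcb hu))) hne
    refine ⟨ball z (ε / 4), ball_mem_nhds z (by linarith), ?_⟩
    rw [withDensity_apply _ measurableSet_ball]
    refine lt_of_le_of_lt (lintegral_mono_set ?_) h1
    intro u hu
    rw [mem_ball] at hz' hu
    rw [mem_closedBall]
    have := dist_triangle u z z'
    rw [dist_comm z z'] at this
    linarith
  -- compact pieces
  have hcomp : ∀ t : ℕ, ∫⁻ q in (cube (t:ℝ) (0 : Fin n → ℝ)) ×ˢ closedBall y₀ δ, D (cpt q.1 q.2) < ⊤ := by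
    intro t
    have hK : IsCompact ((fun q : (Fin n → ℝ) × (Fin n → ℝ) => cpt q.1 q.2) ''
        (closedBall (0 : Fin n → ℝ) t ×ˢ closedBall y₀ δ)) :=
      ((isCompact_closedBall _ _).prod (isCompact_closedBall _ _)).image continuous_cpt
    have hfin := hK.measure_lt_top_of_nhdsWithin (μ := volume.withDensity D) (by
      rintro _ ⟨q, hq, rfl⟩
      refine (hloc _ ?_).filter_mono nhdsWithin_le_nhds
      show imPart (cpt q.1 q.2) ∈ ball p ρ
      rw [imPart_cpt]
      exact hy₀ hq.2)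
    rw [withDensity_apply _ hK.measurableSet] at hfin
    refine lt_of_le_of_lt ?_ hfin
    rw [← (measurePreserving_cpt (n := n)).setLIntegral_comp_preimage hK.measurableSet hDm]
    refine lintegral_mono_set ?_
    intro q hq
    refine ⟨q, ⟨?_, hq.2⟩, rfl⟩
    have h2 : q.1 ∈ cube (t:ℝ) 0 := hq.1
    rw [mem_closedBall, dist_pi_le_iff (by positivity)]
    intro j
    exact (h2 j).le
  have hae : ∀ᵐ y ∂(volume.restrict (closedBall y₀ δ)), ∀ t : ℕ, ∫⁻ x in cube (t:ℝ) 0, D (cpt x y) < ⊤ := by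
    rw [ae_all_iff]
    intro t
    have h1 := hcomp t
    have hDc : Measurable (fun q : (Fin n → ℝ) × (Fin n → ℝ) => D (cpt q.1 q.2)) :=
      hDm.comp continuous_cpt.measurable
    rw [Measure.volume_eq_prod, ← Measure.prod_restrict, lintegral_prod_symm' _ hDc] at h1
    exact ae_lt_top hDc.lintegral_prod_left' h1.ne
  have hpos : volume.restrict (closedBall y₀ δ) ≠ 0 := by
    intro h
    rw [Measure.restrict_eq_zero] at h
    have := measure_closedBall_pos volume y₀ hδ
    exact this.ne' h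
  have : (ae (volume.restrict (closedBall y₀ δ))).NeBot := ae_neBot.2 hpos
  obtain ⟨y, hy1, hy2⟩ := (hae.and (ae_restrict_mem measurableSet_closedBall)).exists
  refine ⟨y, hy2, fun t => ?_⟩
  obtain ⟨k, hk⟩ := exists_nat_ge t
  refine lt_of_le_of_lt (lintegral_mono_set ?_) (hy1 k)
  intro x hx j
  exact lt_of_lt_of_le (hx j) hk


/-- mean of `log |f|` over the cube of size `t` at height `y` -/
noncomputable def logMean (f : (Fin n → ℂ) → ℂ) (y : Fin n → ℝ) (t : ℝ) : ℝ :=
  1 / (2 * t) ^ n * ∫ x in cube t 0, Real.log ‖f (cpt x y)‖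

noncomputable def defV (f : (Fin n → ℂ) → ℂ) (M : ℝ) (t : ℝ) (y : Fin n → ℝ) : ENNReal :=
  ∫⁻ x in cube t 0, dfc0 M (f (cpt x y))

lemma log_le_of_bound {M : ℝ} (hM0 : 0 ≤ M) {u : ℂ} (hu : ‖u‖ ≤ Real.exp M) : 0 ≤ M - Real.log ‖u‖ := by
  by_cases h : u = 0
  · simp [h, hM0]
  · have : Real.log ‖u‖ ≤ M := by
      rw [Real.log_le_iff_le_exp (norm_pos_iff.2 h)]; exact hu
    linarith

lemma measurable_cpt_left (y : Fin n → ℝ) : Measurable (fun x : Fin n → ℝ => cpt x y) := by
  have : Continuous (fun x : Fin n → ℝ => cpt x y) := by unfold cpt; fun_prop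
  exact this.measurable

lemma defV_eq {f : (Fin n → ℂ) → ℂ} (hfm : Measurable f) {M : ℝ} (hM0 : 0 ≤ M) {y : Fin n → ℝ}
    (hM : ∀ x, ‖f (cpt x y)‖ ≤ Real.exp M) {t : ℝ} (ht : 0 < t) (hV : defV f M t y < ⊤) :
    defV f M t y = ENNReal.ofReal ((2 * t) ^ n * (M - logMean f y t)) := by
  have hm : Measurable (fun x : Fin n → ℝ => M - Real.log ‖f (cpt x y)‖) := by
    have := hfm.comp (measurable_cpt_left y)
    exact measurable_const.sub (Real.measurable_log.comp this.norm)
  have hnn : ∀ x, 0 ≤ M - Real.log ‖f (cpt x y)‖ := fun x => log_le_of_bound hM0 (hM x)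
  have hcube : volume (cube t (0 : Fin n → ℝ)) = ENNReal.ofReal ((2 * t) ^ n) := volume_cube ht 0
  have hcf : IsFiniteMeasure (volume.restrict (cube t (0 : Fin n → ℝ))) := by
    refine ⟨?_⟩
    rw [Measure.restrict_apply_univ, hcube]; exact ENNReal.ofReal_lt_top
  have hint : Integrable (fun x : Fin n → ℝ => M - Real.log ‖f (cpt x y)‖) (volume.restrict (cube t 0)) := by
    rw [← lintegral_ofReal_ne_top_iff_integrable hm.aestronglyMeasurable (ae_of_all _ hnn)]
    exact hV.ne
  have hint2 : Integrable (fun x : Fin n → ℝ => Real.log ‖f (cpt x y)‖) (volume.restrict (cube t 0)) := by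
    have := (integrable_const M).sub hint
    refine this.congr (ae_of_all _ fun x => ?_)
    simp
  unfold defV dfc0
  rw [← ofReal_integral_eq_lintegral_ofReal hint (ae_of_all _ hnn), integral_sub (integrable_const M) hint2]
  congr 1
  have hpow : (0:ℝ) < (2 * t) ^ n := by positivity
  rw [integral_const, measureReal_restrict_apply MeasurableSet.univ, univ_inter, measureReal_def, hcube,
    ENNReal.toReal_ofReal hpow.le, smul_eq_mul, logMean, mul_sub, ← mul_assoc, mul_one_div, div_self hpow.ne',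
    one_mul]

lemma tendsto_defV {f : (Fin n → ℂ) → ℂ} (hfm : Measurable f) {M : ℝ} (hM0 : 0 ≤ M) {y : Fin n → ℝ}
    (hM : ∀ x, ‖f (cpt x y)‖ ≤ Real.exp M) (hV : ∀ t, defV f M t y < ⊤) {v : ℝ}
    (hv : Tendsto (logMean f y) atTop (𝓝 v)) (s : ℝ) :
    Tendsto (fun k : ℕ => defV f M (k + s) y / ENNReal.ofReal ((2 * (k:ℝ)) ^ n)) atTop
      (𝓝 (ENNReal.ofReal (M - v))) := by
  have hk : Tendsto (fun k : ℕ => (k:ℝ) + s) atTop atTop :=
    tendsto_atTop_add_const_right _ _ tendsto_natCast_atTop_atTop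
  have h1 : Tendsto (fun k : ℕ => logMean f y ((k:ℝ) + s)) atTop (𝓝 v) := hv.comp hk
  have h2 : Tendsto (fun k : ℕ => (((k:ℝ) + s) / (k:ℝ)) ^ n) atTop (𝓝 (1 ^ n)) := by
    refine Tendsto.pow ?_ n
    have h3 : Tendsto (fun k : ℕ => 1 + s / (k:ℝ)) atTop (𝓝 (1 + 0)) :=
      tendsto_const_nhds.add (tendsto_const_div_atTop_nhds_zero_nat s)
    rw [add_zero] at h3
    refine h3.congr' ?_
    filter_upwards [eventually_gt_atTop 0] with k hk
    have : (k:ℝ) ≠ 0 := by positivity
    field_simp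
  have h3 : Tendsto (fun k : ℕ => ENNReal.ofReal ((((k:ℝ) + s) / (k:ℝ)) ^ n * (M - logMean f y ((k:ℝ) + s)))) atTop
      (𝓝 (ENNReal.ofReal (1 ^ n * (M - v)))) :=
    ENNReal.tendsto_ofReal (h2.mul (tendsto_const_nhds.sub h1))
  rw [one_pow, one_mul] at h3
  refine h3.congr' ?_
  filter_upwards [eventually_gt_atTop 0, hk.eventually_gt_atTop 0] with k hk0 hks
  have hk0' : (0:ℝ) < k := by exact_mod_cast hk0
  rw [defV_eq hfm hM0 hM hks (hV _), ← ENNReal.ofReal_div_of_pos (by positivity)]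
  congr 1
  rw [div_pow, mul_pow, mul_pow]
  field_simp

lemma defV_mono (f : (Fin n → ℂ) → ℂ) (M : ℝ) (y : Fin n → ℝ) {t t' : ℝ} (h : t ≤ t') :
    defV f M t y ≤ defV f M t' y := by
  refine lintegral_mono_set ?_
  intro x hx j
  exact lt_of_lt_of_le (hx j) h

lemma liminf_defV {f : (Fin n → ℂ) → ℂ} (hfm : Measurable f) {M : ℝ} (hM0 : 0 ≤ M) {y : Fin n → ℝ}
    (hM : ∀ x, ‖f (cpt x y)‖ ≤ Real.exp M) {v : ℝ}
    (hv : Tendsto (logMean f y) atTop (𝓝 v)) (s : ℝ) :
    ENNReal.ofReal (M - v) ≤ liminf (fun k : ℕ => defV f M (k + s) y / ENNReal.ofReal ((2 * (k:ℝ)) ^ n)) atTop := by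
  by_cases hV : ∀ t, defV f M t y < ⊤
  · rw [(tendsto_defV hfm hM0 hM hV hv s).liminf_eq]
  · push Not at hV
    obtain ⟨t, ht⟩ := hV
    rw [top_le_iff] at ht
    have hk : Tendsto (fun k : ℕ => (k:ℝ) + s) atTop atTop :=
      tendsto_atTop_add_const_right _ _ tendsto_natCast_atTop_atTop
    refine le_liminf_of_le (by isBoundedDefault) ?_
    filter_upwards [hk.eventually_ge_atTop t] with k hk
    have : defV f M (k + s) y = ⊤ := by
      rw [← top_le_iff, ← ht]; exact defV_mono f M y hk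
    rw [this, ENNReal.top_div_of_ne_top ENNReal.ofReal_ne_top]
    exact le_top

lemma density {P : Set (Fin n → ℝ)} (hP : MeasurableSet P) {L δ : ℝ}
    (hrel : ∀ a : Fin n → ℝ, ∃ b, ball b δ ⊆ P ∩ cube L a) (s : ℝ) :
    volume (ball (0 : Fin n → ℝ) δ) * volume (cube s (0 : Fin n → ℝ))
      ≤ volume (cube L (0 : Fin n → ℝ)) * volume (P ∩ cube (s + L) 0) := by
  have h1 : ∀ a : Fin n → ℝ, volume (ball (0 : Fin n → ℝ) δ) ≤ ∫⁻ u in cube L 0, P.indicator 1 (a + u) := by
    intro a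
    obtain ⟨b, hb⟩ := hrel a
    have e1 : ∫⁻ u in cube L 0, P.indicator 1 (a + u) = volume (P ∩ cube L a) := by
      rw [← lintegral_indicator (measurableSet_cube L 0),
        ← lintegral_indicator_one (hP.inter (measurableSet_cube L a)),
        ← lintegral_add_left_eq_self ((P ∩ cube L a).indicator (1 : (Fin n → ℝ) → ENNReal)) a]
      refine lintegral_congr fun u => ?_
      by_cases hu : u ∈ cube L (0 : Fin n → ℝ)
      · have hu' : a + u ∈ cube L a := by
          intro j
          have := hu j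
          simpa using this
        rw [indicator_of_mem hu]
        by_cases hu2 : a + u ∈ P
        · have hm : a + u ∈ P ∩ cube L a := ⟨hu2, hu'⟩
          rw [indicator_of_mem hu2, indicator_of_mem hm]
        · rw [indicator_of_notMem hu2, indicator_of_notMem (fun h => hu2 h.1)]
      · have hu' : a + u ∉ cube L a := by
          intro h
          apply hu
          intro j
          have := h j
          simpa using this
        rw [indicator_of_notMem hu, indicator_of_notMem (fun h => hu' h.2)]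
    rw [e1]
    calc volume (ball (0 : Fin n → ℝ) δ) = volume (ball b δ) := by
          rw [Measure.addHaar_ball_center volume b δ]
      _ ≤ _ := measure_mono hb
  calc volume (ball (0 : Fin n → ℝ) δ) * volume (cube s (0 : Fin n → ℝ))
      = ∫⁻ _ in cube s (0 : Fin n → ℝ), volume (ball (0 : Fin n → ℝ) δ) := by
        rw [setLIntegral_const]
    _ ≤ ∫⁻ a in cube s (0 : Fin n → ℝ), ∫⁻ u in cube L 0, P.indicator 1 (a + u) :=
        lintegral_mono fun a => h1 a
    _ = ∫⁻ u in cube L (0 : Fin n → ℝ), ∫⁻ a in cube s 0, P.indicator 1 (a + u) := by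
        refine lintegral_lintegral_swap ?_
        refine Measurable.aemeasurable ?_
        exact (measurable_one.indicator hP).comp (measurable_fst.add measurable_snd)
    _ ≤ ∫⁻ _ in cube L (0 : Fin n → ℝ), volume (P ∩ cube (s + L) 0) := by
        refine setLIntegral_mono measurable_const ?_
        intro u hu
        rw [← lintegral_indicator (measurableSet_cube s 0),
          ← lintegral_indicator_one (hP.inter (measurableSet_cube (s + L) 0)),
          ← lintegral_add_right_eq_self ((P ∩ cube (s + L) 0).indicator (1 : (Fin n → ℝ) → ENNReal)) u]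
        refine lintegral_mono fun a => ?_
        by_cases ha : a ∈ cube s (0 : Fin n → ℝ)
        · rw [indicator_of_mem ha]
          by_cases ha2 : a + u ∈ P
          · have h3 : a + u ∈ cube (s + L) (0 : Fin n → ℝ) := by
              intro j
              have h4 := ha j
              have h5 := hu j
              simp only [Pi.zero_apply, sub_zero, Pi.add_apply] at h4 h5 ⊢
              exact (abs_add_le _ _).trans_lt (add_lt_add h4 h5)
            have hm : a + u ∈ P ∩ cube (s + L) 0 := ⟨ha2, h3⟩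
            rw [indicator_of_mem ha2, indicator_of_mem hm]
          · rw [indicator_of_notMem ha2]; exact zero_le
        · rw [indicator_of_notMem ha]; exact zero_le
    _ = volume (cube L (0 : Fin n → ℝ)) * volume (P ∩ cube (s + L) 0) := by
        rw [setLIntegral_const, mul_comm]


lemma cpt_add_vec (x y : Fin n → ℝ) (v : Fin n → ℂ) : cpt x y + v = cpt (x + rePart v) (y + imPart v) := by
  rw [← cpt_add, cpt_eta]

lemma lower_shift (f : (Fin n → ℂ) → ℂ) (M : ℝ) (y : Fin n → ℝ) (v : Fin n → ℂ) {R : ℝ} (hv : ‖v‖ ≤ R) (t : ℝ) :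
    defV f M (t - R) (y + imPart v) ≤ ∫⁻ x in cube t 0, dfc0 M (f (cpt x y + v)) := by
  unfold defV
  rw [← lintegral_indicator (measurableSet_cube _ 0), ← lintegral_indicator (measurableSet_cube _ 0),
    ← lintegral_add_right_eq_self ((cube (t - R) 0).indicator fun x : Fin n → ℝ => dfc0 M (f (cpt x (y + imPart v))))
      (rePart v)]
  refine lintegral_mono fun x => ?_
  by_cases hx : x + rePart v ∈ cube (t - R) (0 : Fin n → ℝ)
  · have hx2 : x ∈ cube t (0 : Fin n → ℝ) := by
      intro j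
      have h1 := hx j
      have h2 : |rePart v j| ≤ R := (norm_le_pi_norm (rePart v) j).trans ((norm_rePart_le v).trans hv)
      simp only [Pi.zero_apply, sub_zero, Pi.add_apply] at h1 ⊢
      have h3 : |x j| ≤ |x j + rePart v j| + |rePart v j| := by
        have := abs_sub (x j + rePart v j) (rePart v j)
        rwa [add_sub_cancel_right] at this
      linarith
    rw [indicator_of_mem hx, indicator_of_mem hx2, cpt_add_vec]
  · rw [indicator_of_notMem hx]; exact zero_le

lemma upper_shift (f : (Fin n → ℂ) → ℂ) (M : ℝ) (y : Fin n → ℝ) (v : Fin n → ℂ) {R : ℝ} (hv : ‖v‖ ≤ R) (t : ℝ) :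
    ∫⁻ x in cube t 0, dfc0 M (f (cpt x y + v)) ≤ defV f M (t + R) (y + imPart v) := by
  unfold defV
  rw [← lintegral_indicator (measurableSet_cube _ 0), ← lintegral_indicator (measurableSet_cube _ 0),
    ← lintegral_add_right_eq_self ((cube (t + R) 0).indicator fun x : Fin n → ℝ => dfc0 M (f (cpt x (y + imPart v))))
      (rePart v)]
  refine lintegral_mono fun x => ?_
  by_cases hx : x ∈ cube t (0 : Fin n → ℝ)
  · have hx2 : x + rePart v ∈ cube (t + R) (0 : Fin n → ℝ) := by
      intro j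
      have h1 := hx j
      have h2 : |rePart v j| ≤ R := (norm_le_pi_norm (rePart v) j).trans ((norm_rePart_le v).trans hv)
      simp only [Pi.zero_apply, sub_zero, Pi.add_apply] at h1 ⊢
      have h3 := abs_add_le (x j) (rePart v j)
      linarith
    rw [indicator_of_mem hx, indicator_of_mem hx2, cpt_add_vec]
  · rw [indicator_of_notMem hx]; exact zero_le

lemma measurable_swap {f : (Fin n → ℂ) → ℂ} (hfm : Measurable f) (M : ℝ) (y : Fin n → ℝ) (c : Fin n → ℂ) (r : ℝ) :
    Measurable (fun q : (Fin n → ℝ) × ℝ => dfc0 M (f (cpt q.1 y + circleMap 0 r q.2 • c))) := by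
  refine (measurable_dfc0 M).comp (hfm.comp ?_)
  have : Continuous (fun q : (Fin n → ℝ) × ℝ => cpt q.1 y + circleMap 0 r q.2 • c) := by
    unfold cpt circleMap; fun_prop
  exact this.measurable

lemma measurable_defV_circle {f : (Fin n → ℂ) → ℂ} (hfm : Measurable f) (M t : ℝ) (y : Fin n → ℝ)
    (c : Fin n → ℂ) (r : ℝ) :
    Measurable (fun θ : ℝ => defV f M t (y + imPart (circleMap 0 r θ • c))) := by
  unfold defV
  have h : Measurable (fun q : ℝ × (Fin n → ℝ) => dfc0 M (f (cpt q.2 (y + imPart (circleMap 0 r q.1 • c))))) := by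
    refine (measurable_dfc0 M).comp (hfm.comp ?_)
    have : Continuous (fun q : ℝ × (Fin n → ℝ) => cpt q.2 (y + imPart (circleMap 0 r q.1 • c))) := by
      unfold cpt circleMap imPart; fun_prop
    exact this.measurable
  exact h.lintegral_prod_right'

lemma norm_circle_smul {r : ℝ} (hr : 0 ≤ r) (θ : ℝ) (c : Fin n → ℂ) : ‖circleMap 0 r θ • c‖ = r * ‖c‖ := by
  rw [norm_smul]
  congr 1
  simp [abs_of_nonneg hr]

/-- the averaged inequality, integrated over a cube -/
lemma cube_ineq {f : (Fin n → ℂ) → ℂ} (hfm : Measurable f) (M : ℝ) (y : Fin n → ℝ) (c : Fin n → ℂ) {r : ℝ}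
    (hr : 0 ≤ r) {P : Set (Fin n → ℝ)} (hP : MeasurableSet P)
    (hpt : ∀ x, (∫⁻ θ in Ioc 0 (2 * π), dfc0 M (f (cpt x y + circleMap 0 r θ • c)))
      + ENNReal.ofReal (2 * π) * P.indicator 1 x ≤ ENNReal.ofReal (2 * π) * dfc M (f (cpt x y))) (t : ℝ) :
    (∫⁻ θ in Ioc 0 (2 * π), defV f M (t - r * ‖c‖) (y + imPart (circleMap 0 r θ • c)))
      + ENNReal.ofReal (2 * π) * volume (P ∩ cube t 0)
      ≤ ENNReal.ofReal (2 * π) * ∫⁻ x in cube t 0, dfc M (f (cpt x y)) := by
  have hm1 : Measurable (fun x : Fin n → ℝ => dfc M (f (cpt x y))) :=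
    (measurable_dfc M).comp (hfm.comp (measurable_cpt_left y))
  have hm2 := measurable_swap hfm M y c r
  have hm3 : Measurable (fun x : Fin n → ℝ => ∫⁻ θ in Ioc 0 (2 * π), dfc0 M (f (cpt x y + circleMap 0 r θ • c))) :=
    hm2.lintegral_prod_right'
  have e1 : ∫⁻ x in cube t 0, P.indicator (1 : (Fin n → ℝ) → ENNReal) x = volume (P ∩ cube t 0) := by
    rw [lintegral_indicator_one hP, Measure.restrict_apply hP]
  calc (∫⁻ θ in Ioc 0 (2 * π), defV f M (t - r * ‖c‖) (y + imPart (circleMap 0 r θ • c)))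
      + ENNReal.ofReal (2 * π) * volume (P ∩ cube t 0)
      ≤ (∫⁻ θ in Ioc 0 (2 * π), ∫⁻ x in cube t 0, dfc0 M (f (cpt x y + circleMap 0 r θ • c)))
      + ENNReal.ofReal (2 * π) * volume (P ∩ cube t 0) := by
        gcongr with θ
        exact lower_shift f M y _ (norm_circle_smul hr θ c).le t
    _ = (∫⁻ x in cube t 0, ∫⁻ θ in Ioc 0 (2 * π), dfc0 M (f (cpt x y + circleMap 0 r θ • c)))
      + ENNReal.ofReal (2 * π) * ∫⁻ x in cube t 0, P.indicator (1 : (Fin n → ℝ) → ENNReal) x := by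
        rw [e1]
        congr 1
        exact (lintegral_lintegral_swap hm2.aemeasurable).symm
    _ = ∫⁻ x in cube t 0, ((∫⁻ θ in Ioc 0 (2 * π), dfc0 M (f (cpt x y + circleMap 0 r θ • c)))
      + ENNReal.ofReal (2 * π) * P.indicator (1 : (Fin n → ℝ) → ENNReal) x) := by
        rw [lintegral_add_left hm3, lintegral_const_mul _ (measurable_one.indicator hP)]
    _ ≤ ∫⁻ x in cube t 0, ENNReal.ofReal (2 * π) * dfc M (f (cpt x y)) := lintegral_mono fun x => hpt x
    _ = ENNReal.ofReal (2 * π) * ∫⁻ x in cube t 0, dfc M (f (cpt x y)) := lintegral_const_mul _ hm1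

lemma defV_eq_of_lt_top {f : (Fin n → ℂ) → ℂ} (hfm : Measurable f) (M : ℝ) (y : Fin n → ℝ) (t : ℝ)
    (h : ∫⁻ x in cube t 0, dfc M (f (cpt x y)) < ⊤) :
    ∫⁻ x in cube t 0, dfc M (f (cpt x y)) = defV f M t y := by
  have hm1 : Measurable (fun x : Fin n → ℝ => dfc M (f (cpt x y))) :=
    (measurable_dfc M).comp (hfm.comp (measurable_cpt_left y))
  have hae := ae_lt_top hm1 h.ne
  unfold defV
  refine lintegral_congr_ae ?_
  filter_upwards [hae] with x hx
  unfold dfc at hx ⊢
  unfold dfc0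
  split_ifs at hx ⊢ with h0
  · exact absurd hx (lt_irrefl _)
  · rfl


/-- lower density of a relatively dense union of balls -/
lemma density_lower {P : Set (Fin n → ℝ)} (hP : MeasurableSet P) {L δ : ℝ} (hL : 0 < L) (hδ : 0 < δ)
    (hrel : ∀ a : Fin n → ℝ, ∃ b, ball b δ ⊆ P ∩ cube L a) :
    ∃ κ : ℝ, 0 < κ ∧ ∀ᶠ k : ℕ in atTop,
      ENNReal.ofReal κ ≤ volume (P ∩ cube (k:ℝ) 0) / ENNReal.ofReal ((2 * (k:ℝ)) ^ n) := by
  refine ⟨(2 * δ) ^ n / ((2 * L) ^ n * 2 ^ n), by positivity, ?_⟩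
  obtain ⟨k₀, hk₀⟩ := exists_nat_ge (2 * L)
  filter_upwards [eventually_ge_atTop (k₀ + 1)] with k hk
  have hk1 : 2 * L < (k:ℝ) := by
    have : ((k₀ + 1 : ℕ) : ℝ) ≤ k := by exact_mod_cast hk
    push_cast at this
    linarith
  have hkpos : (0:ℝ) < k := by linarith
  have hkL : 0 < (k:ℝ) - L := by linarith
  have h1 := density hP hrel ((k:ℝ) - L)
  rw [sub_add_cancel, Real.volume_pi_ball _ hδ, Fintype.card_fin, volume_cube hkL, volume_cube hL,
    ← ENNReal.ofReal_mul (by positivity)] at h1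
  have hpos : (0:ℝ) < (2 * (k:ℝ)) ^ n := by positivity
  have hpos' : ENNReal.ofReal ((2 * (k:ℝ)) ^ n) ≠ 0 := (ENNReal.ofReal_pos.2 hpos).ne'
  rw [ENNReal.le_div_iff_mul_le (Or.inl hpos') (Or.inl ENNReal.ofReal_ne_top),
    ← ENNReal.ofReal_mul (by positivity)]
  have hLpos : (0:ℝ) < (2 * L) ^ n := by positivity
  rw [← ENNReal.mul_le_mul_iff_right (a := ENNReal.ofReal ((2 * L) ^ n)) (ENNReal.ofReal_pos.2 hLpos).ne' ENNReal.ofReal_ne_top]
  refine le_trans ?_ h1
  rw [← ENNReal.ofReal_mul hLpos.le]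
  refine ENNReal.ofReal_le_ofReal ?_
  have e : (2 * L) ^ n * ((2 * δ) ^ n / ((2 * L) ^ n * 2 ^ n) * (2 * (k:ℝ)) ^ n) = (2 * δ) ^ n * (k:ℝ) ^ n := by
    rw [mul_pow 2 (k:ℝ)]
    field_simp
  rw [e]
  refine mul_le_mul_of_nonneg_left ?_ (by positivity)
  exact pow_le_pow_left₀ hkpos.le (by linarith) n

/-- contradiction at the level of averages -/
lemma P1_limit {f : (Fin n → ℂ) → ℂ} (hfm : Measurable f) {M : ℝ} (hM0 : 0 ≤ M) {p : Fin n → ℝ} {ρ : ℝ}
    (hM : ∀ z ∈ tube (closedBall p ρ), ‖f z‖ ≤ Real.exp M)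
    {φ : (Fin n → ℝ) → ℝ} (hφ : ∀ y ∈ closedBall p ρ, Tendsto (logMean f y) atTop (𝓝 (φ y)))
    {y : Fin n → ℝ} (hy : y ∈ closedBall p ρ) (hgen : ∀ t : ℝ, ∫⁻ x in cube t 0, dfc M (f (cpt x y)) < ⊤)
    {c : Fin n → ℂ} {r : ℝ} (hr : 0 ≤ r)
    (hcirc : ∀ θ : ℝ, y + imPart (circleMap 0 r θ • c) ∈ closedBall p ρ)
    (hconst : ∀ θ : ℝ, φ (y + imPart (circleMap 0 r θ • c)) = φ y)
    {P : Set (Fin n → ℝ)} (hP : MeasurableSet P) {L δ : ℝ} (hL : 0 < L) (hδ : 0 < δ)
    (hrel : ∀ a : Fin n → ℝ, ∃ b, ball b δ ⊆ P ∩ cube L a)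
    (hpt : ∀ x, (∫⁻ θ in Ioc 0 (2 * π), dfc0 M (f (cpt x y + circleMap 0 r θ • c)))
      + ENNReal.ofReal (2 * π) * P.indicator 1 x ≤ ENNReal.ofReal (2 * π) * dfc M (f (cpt x y))) : False := by
  have hpi : 0 < 2 * π := by positivity
  obtain ⟨κ, hκ, hκk⟩ := density_lower hP hL hδ hrel
  have hbd : ∀ y' ∈ closedBall p ρ, ∀ x, ‖f (cpt x y')‖ ≤ Real.exp M := by
    intro y' hy' x
    refine hM _ ?_
    show imPart (cpt x y') ∈ closedBall p ρ
    rw [imPart_cpt]; exact hy'
  -- the sequences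
  set R := r * ‖c‖ with hR
  set u : ℕ → ENNReal := fun k => ∫⁻ θ in Ioc 0 (2 * π),
    defV f M (k + (-R)) (y + imPart (circleMap 0 r θ • c)) / ENNReal.ofReal ((2 * (k:ℝ)) ^ n) with hu
  set v : ℕ → ENNReal := fun k => ENNReal.ofReal (2 * π) * (defV f M (k + 0) y / ENNReal.ofReal ((2 * (k:ℝ)) ^ n)) with hv
  have hvlim : Tendsto v atTop (𝓝 (ENNReal.ofReal (2 * π) * ENNReal.ofReal (M - φ y))) := by
    refine ENNReal.Tendsto.const_mul ?_ (Or.inr ENNReal.ofReal_ne_top)
    refine tendsto_defV hfm hM0 (hbd y hy) (fun t => ?_) (hφ y hy) 0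
    rw [← defV_eq_of_lt_top hfm M y t (hgen t)]
    exact hgen t
  have hulim : ENNReal.ofReal (2 * π) * ENNReal.ofReal (M - φ y) ≤ liminf u atTop := by
    calc ENNReal.ofReal (2 * π) * ENNReal.ofReal (M - φ y)
        = ∫⁻ _ in Ioc 0 (2 * π), ENNReal.ofReal (M - φ y) := by
          rw [setLIntegral_const, Real.volume_Ioc, sub_zero, mul_comm]
      _ ≤ ∫⁻ θ in Ioc 0 (2 * π), liminf (fun k : ℕ =>
            defV f M (k + (-R)) (y + imPart (circleMap 0 r θ • c)) / ENNReal.ofReal ((2 * (k:ℝ)) ^ n)) atTop := by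
          refine lintegral_mono fun θ => ?_
          have := liminf_defV hfm hM0 (hbd _ (hcirc θ)) (hφ _ (hcirc θ)) (-R)
          rwa [hconst θ] at this
      _ ≤ liminf u atTop := by
          refine lintegral_liminf_le fun k => ?_
          exact (measurable_defV_circle hfm M _ y c r).div_const _
  have hineq : ∀ᶠ k : ℕ in atTop, u k + ENNReal.ofReal (2 * π) * ENNReal.ofReal κ ≤ v k := by
    filter_upwards [hκk, eventually_gt_atTop 0] with k hk hk0
    have h1 := cube_ineq hfm M y c hr hP hpt (k:ℝ)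
    rw [defV_eq_of_lt_top hfm M y _ (hgen _), ← hR] at h1
    have e1 : u k = (∫⁻ θ in Ioc 0 (2 * π), defV f M (k - R) (y + imPart (circleMap 0 r θ • c)))
        / ENNReal.ofReal ((2 * (k:ℝ)) ^ n) := by
      simp only [hu, ← sub_eq_add_neg, div_eq_mul_inv]
      rw [lintegral_mul_const _ (measurable_defV_circle hfm M _ y c r)]
    have e2 : v k = (ENNReal.ofReal (2 * π) * defV f M k y) / ENNReal.ofReal ((2 * (k:ℝ)) ^ n) := by
      simp only [hv, add_zero, div_eq_mul_inv, mul_assoc]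
    rw [e1, e2]
    calc (∫⁻ θ in Ioc 0 (2 * π), defV f M (k - R) (y + imPart (circleMap 0 r θ • c)))
        / ENNReal.ofReal ((2 * (k:ℝ)) ^ n) + ENNReal.ofReal (2 * π) * ENNReal.ofReal κ
        ≤ (∫⁻ θ in Ioc 0 (2 * π), defV f M (k - R) (y + imPart (circleMap 0 r θ • c)))
        / ENNReal.ofReal ((2 * (k:ℝ)) ^ n) + ENNReal.ofReal (2 * π) *
          (volume (P ∩ cube (k:ℝ) 0) / ENNReal.ofReal ((2 * (k:ℝ)) ^ n)) := by gcongr
      _ = ((∫⁻ θ in Ioc 0 (2 * π), defV f M (k - R) (y + imPart (circleMap 0 r θ • c)))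
        + ENNReal.ofReal (2 * π) * volume (P ∩ cube (k:ℝ) 0)) / ENNReal.ofReal ((2 * (k:ℝ)) ^ n) := by
          simp only [div_eq_mul_inv, add_mul, mul_assoc]
      _ ≤ _ := by gcongr
  have hfinal : ENNReal.ofReal (2 * π) * ENNReal.ofReal (M - φ y) + ENNReal.ofReal (2 * π) * ENNReal.ofReal κ
      ≤ ENNReal.ofReal (2 * π) * ENNReal.ofReal (M - φ y) := by
    calc ENNReal.ofReal (2 * π) * ENNReal.ofReal (M - φ y) + ENNReal.ofReal (2 * π) * ENNReal.ofReal κ
        ≤ liminf u atTop + ENNReal.ofReal (2 * π) * ENNReal.ofReal κ := by gcongr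
      _ = liminf (fun k => u k + ENNReal.ofReal (2 * π) * ENNReal.ofReal κ) atTop := by
          rw [liminf_add_const]
          · isBoundedDefault
          · isBoundedDefault
      _ ≤ liminf v atTop := liminf_le_liminf hineq
      _ = _ := hvlim.liminf_eq
  have hne : ENNReal.ofReal (2 * π) * ENNReal.ofReal (M - φ y) ≠ ⊤ :=
    ENNReal.mul_ne_top ENNReal.ofReal_ne_top ENNReal.ofReal_ne_top
  have hpos : ENNReal.ofReal (2 * π) * ENNReal.ofReal κ ≠ 0 := by
    simp only [ne_eq, mul_eq_zero, ENNReal.ofReal_eq_zero, not_or, not_le]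
    exact ⟨hpi, hκ⟩
  exact absurd hfinal (not_le.2 (ENNReal.lt_add_right hne hpos))


/-- Propagation of zeros in directions in which the mean function is constant. -/
lemma propagate {G : Set (Fin n → ℝ)} (hG : IsOpen G) (hGc : Convex ℝ G)
    {f : (Fin n → ℂ) → ℂ} (hfm : Measurable f) (hf : DifferentiableOn ℂ f (tube G))
    {z₁ : Fin n → ℂ} (hz₁ : z₁ ∈ tube G) (hf₁ : f z₁ ≠ 0)
    {M : ℝ} (hM0 : 0 ≤ M) {p : Fin n → ℝ} {ρ : ℝ} (hp : closedBall p ρ ⊆ G)
    (hM : ∀ z ∈ tube (closedBall p ρ), ‖f z‖ ≤ Real.exp M)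
    (hap : ∀ ε : ℝ, 0 < ε → ∃ l : ℝ, 0 < l ∧ ∀ a : Fin n → ℝ, ∃ h ∈ cube l a,
      ∀ z ∈ tube (closedBall p ρ), ‖f (z + cpt h 0) - f z‖ ≤ ε)
    {φ : (Fin n → ℝ) → ℝ} (hφ : ∀ y ∈ closedBall p ρ, Tendsto (logMean f y) atTop (𝓝 (φ y)))
    {z₀ : Fin n → ℂ} (hz₀ : z₀ ∈ tube (ball p ρ)) (h0 : f z₀ = 0) {c : Fin n → ℂ} {δ₀ : ℝ} (hδ₀ : 0 < δ₀)
    (hc : ∀ y ∈ ball (imPart z₀) δ₀, ∀ w : ℂ, ‖w‖ < δ₀ → φ (y + imPart (w • c)) = φ y) :
    ∀ᶠ w : ℂ in 𝓝 0, f (z₀ + w • c) = 0 := by
  by_contra hcon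
  have hUo := isOpen_tube hG
  have hsub : tube (ball p ρ) ⊆ tube G := fun z hz => hp (ball_subset_closedBall hz)
  have hline := line_analytic hUo hf z₀ c
  have han0 : AnalyticAt ℂ (fun w : ℂ => f (z₀ + w • c)) 0 := by
    refine hline 0 ?_
    show z₀ + (0:ℂ) • c ∈ tube G
    rw [zero_smul, add_zero]; exact hsub hz₀
  have hne : ∀ᶠ w : ℂ in 𝓝[≠] 0, f (z₀ + w • c) ≠ 0 :=
    (han0.eventually_eq_zero_or_eventually_ne_zero).resolve_left hcon
  rw [eventually_nhdsWithin_iff, Metric.eventually_nhds_iff] at hne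
  obtain ⟨r₀, hr₀, hne⟩ := hne
  obtain ⟨η, hη, hηs⟩ := Metric.isOpen_iff.1 (isOpen_ball (x := p) (ε := ρ)) (imPart z₀) hz₀
  -- choice of the radius
  have hcpos : 0 < ‖c‖ + 1 := by positivity
  obtain ⟨r, hr, hr1, hr2, hr3⟩ : ∃ r : ℝ, 0 < r ∧ r < r₀ ∧ r * (‖c‖ + 1) < η / 2 ∧ r < δ₀ := by
    refine ⟨min (r₀ / 2) (min (η / 4 / (‖c‖ + 1)) (δ₀ / 2)), by positivity, ?_, ?_, ?_⟩
    · exact lt_of_le_of_lt (min_le_left _ _) (by linarith)
    · have h1 : min (r₀ / 2) (min (η / 4 / (‖c‖ + 1)) (δ₀ / 2)) ≤ η / 4 / (‖c‖ + 1) :=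
        (min_le_right _ _).trans (min_le_left _ _)
      have h2 := mul_le_mul_of_nonneg_right h1 hcpos.le
      rw [div_mul_cancel₀ _ hcpos.ne'] at h2
      linarith
    · exact lt_of_le_of_lt ((min_le_right _ _).trans (min_le_right _ _)) (by linarith)
  have hrc : r * ‖c‖ < η / 2 := by nlinarith [norm_nonneg c]
  have hwc : ∀ w : ℂ, ‖w‖ ≤ r → ‖imPart (w • c)‖ < η / 2 := by
    intro w hw
    refine lt_of_le_of_lt ((norm_imPart_le _).trans ?_) hrc
    rw [norm_smul]
    exact mul_le_mul_of_nonneg_right hw (norm_nonneg _)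
  have hstay : ∀ y : Fin n → ℝ, dist y (imPart z₀) < η / 2 → ∀ w : ℂ, ‖w‖ ≤ r → y + imPart (w • c) ∈ ball p ρ := by
    intro y hy w hw
    apply hηs
    rw [mem_ball]
    calc dist (y + imPart (w • c)) (imPart z₀) ≤ dist (y + imPart (w • c)) y + dist y (imPart z₀) := dist_triangle _ _ _
      _ < η / 2 + η / 2 := by
          refine add_lt_add ?_ hy
          rw [dist_eq_norm, add_sub_cancel_left]; exact hwc w hw
      _ = η := by ring
  -- lower bound on the circle
  have hcs : IsCompact (sphere (0:ℂ) r) := isCompact_sphere 0 r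
  have hsne : (sphere (0:ℂ) r).Nonempty := NormedSpace.sphere_nonempty.2 hr.le
  have hmem : ∀ w ∈ sphere (0:ℂ) r, z₀ + w • c ∈ tube G := by
    intro w hw
    have hw' : ‖w‖ = r := by simpa using hw
    refine hsub ?_
    show imPart (z₀ + w • c) ∈ ball p ρ
    rw [imPart_add]
    exact hstay _ (by rw [dist_self]; linarith) w hw'.le
  have hcont : ContinuousOn (fun w : ℂ => ‖f (z₀ + w • c)‖) (sphere (0:ℂ) r) := by
    refine ContinuousOn.norm ?_
    exact (hline.continuousOn).mono hmem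
  obtain ⟨w₀, hw₀, hw₀min⟩ := hcs.exists_isMinOn hsne hcont
  set m := ‖f (z₀ + w₀ • c)‖ with hm
  have hmpos : 0 < m := by
    rw [hm, norm_pos_iff]
    have hw₀' : ‖w₀‖ = r := by simpa using hw₀
    refine hne ?_ ?_
    · rw [dist_zero_right, hw₀']; exact hr1
    · simp only [mem_compl_iff, mem_singleton_iff]
      intro h; rw [h, norm_zero] at hw₀'; linarith
  have hmle : ∀ w ∈ sphere (0:ℂ) r, m ≤ ‖f (z₀ + w • c)‖ := fun w hw => hw₀min hw
  have hmM : m ≤ Real.exp M := by
    refine hM _ ?_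
    have hw₀' : ‖w₀‖ = r := by simpa using hw₀
    show imPart (z₀ + w₀ • c) ∈ closedBall p ρ
    rw [imPart_add]
    exact ball_subset_closedBall (hstay _ (by rw [dist_self]; linarith) w₀ hw₀'.le)
  -- uniform closeness near z₀
  have hev1 : ∀ᶠ z in 𝓝 z₀, ∀ w ∈ sphere (0:ℂ) r, ‖f (z + w • c) - f (z₀ + w • c)‖ < m / 2 := by
    refine hcs.eventually_forall_of_forall_eventually ?_
    intro w hw
    have hfc : ContinuousAt f (z₀ + w • c) :=
      (hf.continuousOn).continuousAt (hUo.mem_nhds (hmem w hw))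
    have h1 : ContinuousAt (fun q : (Fin n → ℂ) × ℂ => ‖f (q.1 + q.2 • c) - f (z₀ + q.2 • c)‖) (z₀, w) := by
      have c1 : ContinuousAt (fun q : (Fin n → ℂ) × ℂ => f (q.1 + q.2 • c)) (z₀, w) :=
        ContinuousAt.comp (f := fun q : (Fin n → ℂ) × ℂ => q.1 + q.2 • c) (g := f) hfc (by fun_prop)
      have c2 : ContinuousAt (fun q : (Fin n → ℂ) × ℂ => f (z₀ + q.2 • c)) (z₀, w) :=
        ContinuousAt.comp (f := fun q : (Fin n → ℂ) × ℂ => z₀ + q.2 • c) (g := f) hfc (by fun_prop)
      exact (c1.sub c2).norm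
    exact Filter.Tendsto.eventually_lt_const (u := m / 2) (by simpa using hmpos) h1
  have hev2 : ∀ᶠ z in 𝓝 z₀, ‖f z‖ < m / 32 := by
    have hfc : ContinuousAt f z₀ := (hf.continuousOn).continuousAt (hUo.mem_nhds (hsub hz₀))
    refine Filter.Tendsto.eventually_lt_const (u := m / 32) ?_ hfc.norm
    show ‖f z₀‖ < m / 32
    rw [h0, norm_zero]; positivity
  obtain ⟨δ₁, hδ₁, hclose⟩ := Metric.eventually_nhds_iff.1 (hev1.and hev2)
  obtain ⟨δ, hδ, hδ1, hδ2, hδ3⟩ : ∃ δ : ℝ, 0 < δ ∧ 2 * δ ≤ δ₁ ∧ δ < η / 2 ∧ δ < δ₀ := by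
    refine ⟨min (δ₁ / 2) (min (η / 4) (δ₀ / 2)), by positivity, ?_, ?_, ?_⟩
    · have := min_le_left (δ₁ / 2) (min (η / 4) (δ₀ / 2))
      linarith
    · exact lt_of_le_of_lt ((min_le_right _ _).trans (min_le_left _ _)) (by linarith)
    · exact lt_of_le_of_lt ((min_le_right _ _).trans (min_le_right _ _)) (by linarith)
  obtain ⟨l, hl, hlh⟩ := hap (m / 32) (by positivity)
  -- the set of good translates
  set H : Set (Fin n → ℝ) := {h | ∀ z ∈ tube (closedBall p ρ), ‖f (z + cpt h 0) - f z‖ ≤ m / 32} with hH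
  set P : Set (Fin n → ℝ) := ⋃ h ∈ H, ball (rePart z₀ + h) δ with hPdef
  have hPo : IsOpen P := isOpen_biUnion fun h _ => isOpen_ball
  -- generic height
  obtain ⟨y, hy, hgen⟩ := exists_generic hG hGc hfm hf hz₁ hf₁ hM0 hp hM (y₀ := imPart z₀) hδ
    (fun y hy => hηs (by rw [mem_closedBall] at hy; rw [mem_ball]; linarith))
  have hyd : dist y (imPart z₀) < η / 2 := by
    rw [mem_closedBall] at hy; linarith
  have hycirc : ∀ w : ℂ, ‖w‖ ≤ r → y + imPart (w • c) ∈ closedBall p ρ := fun w hw =>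
    ball_subset_closedBall (hstay y hyd w hw)
  have hcirc_norm : ∀ θ : ℝ, ‖circleMap 0 r θ‖ = r := fun θ => by simp [abs_of_pos hr]
  have hymem : y ∈ closedBall p ρ := by
    have := hycirc 0 (by rw [norm_zero]; exact hr.le)
    rw [zero_smul] at this
    have e : imPart (0 : Fin n → ℂ) = 0 := by funext j; simp [imPart]
    rwa [e, add_zero] at this
  refine P1_limit hfm hM0 hM hφ hymem hgen hr.le (c := c)
    (fun θ => hycirc _ (hcirc_norm θ).le) (fun θ => ?_) hPo.measurableSet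
    (L := l + δ) (by positivity) hδ ?_ ?_
  · refine hc y ?_ _ ?_
    · rw [mem_ball]; rw [mem_closedBall] at hy; linarith
    · rw [hcirc_norm θ]; exact hr3
  · intro a
    obtain ⟨h, hh1, hh2⟩ := hlh (a - rePart z₀)
    refine ⟨rePart z₀ + h, fun x hx => ⟨?_, ?_⟩⟩
    · rw [hPdef]
      exact mem_biUnion hh2 hx
    · intro j
      rw [mem_ball, dist_pi_lt_iff hδ] at hx
      have h1 := hx j
      have h2 := hh1 j
      rw [Real.dist_eq] at h1
      simp only [Pi.sub_apply, Pi.add_apply] at h1 h2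
      have h3 : x j - a j = (x j - (rePart z₀ j + h j)) + (h j - (a j - rePart z₀ j)) := by ring
      rw [h3]
      have := abs_add_le (x j - (rePart z₀ j + h j)) (h j - (a j - rePart z₀ j))
      linarith
  · -- pointwise inequality
    intro x
    have hbound : ∀ w ∈ closedBall (0:ℂ) r, ‖f (cpt x y + w • c)‖ ≤ Real.exp M := by
      intro w hw
      have hw' : ‖w‖ ≤ r := by simpa using hw
      refine hM _ ?_
      show imPart (cpt x y + w • c) ∈ closedBall p ρ
      rw [imPart_add, imPart_cpt]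
      exact hycirc w hw'
    have hcmem : ∀ w ∈ closedBall (0:ℂ) r, cpt x y + w • c ∈ tube G := by
      intro w hw
      have hw' : ‖w‖ ≤ r := by simpa using hw
      refine hp ?_
      show imPart (cpt x y + w • c) ∈ closedBall p ρ
      rw [imPart_add, imPart_cpt]
      exact hycirc w hw'
    by_cases hx : x ∈ P
    · rw [indicator_of_mem hx]
      obtain ⟨h, hhH, hxh⟩ := mem_iUnion₂.1 hx
      have hz' : dist (cpt (x - h) y) z₀ < δ₁ := by
        have e1 : cpt (x - h) y - z₀ = cpt (x - h - rePart z₀) (y - imPart z₀) := by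
          rw [← cpt_eta z₀, rePart_cpt, imPart_cpt]
          funext j; simp [cpt]; ring
        rw [dist_eq_norm, e1]
        refine lt_of_le_of_lt (norm_cpt_le _ _) ?_
        have e2 : ‖x - h - rePart z₀‖ < δ := by
          have : x - h - rePart z₀ = x - (rePart z₀ + h) := by abel
          rw [this, ← dist_eq_norm]; exact hxh
        have e3 : ‖y - imPart z₀‖ ≤ δ := by rw [← dist_eq_norm]; exact hy
        linarith
      obtain ⟨hcl1, hcl2⟩ := hclose hz'
      have ecpt : ∀ v : Fin n → ℂ, cpt x y + v = cpt (x - h) y + v + cpt h 0 := by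
        intro v; funext j; simp [cpt]; ring
      -- on the circle
      have hlow : ∀ θ : ℝ, dfc0 M (f (cpt x y + circleMap 0 r θ • c)) ≤ ENNReal.ofReal (M - Real.log (m / 4)) := by
        intro θ
        have hws : circleMap 0 r θ ∈ sphere (0:ℂ) r := circleMap_mem_sphere 0 hr.le θ
        have s1 := hcl1 _ hws
        have s2 := hmle _ hws
        have s3 : ‖f (cpt x y + circleMap 0 r θ • c) - f (cpt (x - h) y + circleMap 0 r θ • c)‖ ≤ m / 32 := by
          rw [ecpt]
          refine hhH _ ?_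
          show imPart (cpt (x - h) y + circleMap 0 r θ • c) ∈ closedBall p ρ
          rw [imPart_add, imPart_cpt]
          exact hycirc _ (hcirc_norm θ).le
        have s4 : m / 4 ≤ ‖f (cpt x y + circleMap 0 r θ • c)‖ := by
          have t1 := norm_sub_norm_le (f (z₀ + circleMap 0 r θ • c)) (f (cpt (x - h) y + circleMap 0 r θ • c))
          have t2 := norm_sub_norm_le (f (cpt (x - h) y + circleMap 0 r θ • c)) (f (cpt x y + circleMap 0 r θ • c))
          rw [norm_sub_rev] at t1 t2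
          linarith
        unfold dfc0
        refine ENNReal.ofReal_le_ofReal ?_
        have := Real.log_le_log (by positivity) s4
        linarith
      -- at the centre
      have hhigh : ENNReal.ofReal (M - Real.log (m / 4)) + 1 ≤ dfc M (f (cpt x y)) := by
        have s1 : ‖f (cpt x y) - f (cpt (x - h) y)‖ ≤ m / 32 := by
          have := ecpt 0
          rw [add_zero, add_zero] at this
          rw [this]
          refine hhH _ ?_
          show imPart (cpt (x - h) y) ∈ closedBall p ρ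
          rw [imPart_cpt]; exact hymem
        have s2 : ‖f (cpt x y)‖ ≤ m / 16 := by
          have t1 := norm_sub_norm_le (f (cpt x y)) (f (cpt (x - h) y))
          linarith
        unfold dfc
        split_ifs with hz
        · exact le_top
        · have s3 : Real.log ‖f (cpt x y)‖ ≤ Real.log (m / 16) :=
            Real.log_le_log (norm_pos_iff.2 hz) s2
          have s4 : Real.log (m / 4) = Real.log (m / 16) + Real.log 4 := by
            rw [← Real.log_mul (by positivity) (by norm_num)]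
            congr 1; ring
          have s5 : (1:ℝ) ≤ Real.log 4 := by
            have : (4:ℝ) = 2 ^ 2 := by norm_num
            rw [this, Real.log_pow]
            have := Real.log_two_gt_d9
            push_cast; linarith
          have s6 : 0 ≤ M - Real.log (m / 4) := by
            have : Real.log (m / 4) ≤ M := by
              rw [Real.log_le_iff_le_exp (by positivity)]
              linarith
            linarith
          rw [← ENNReal.ofReal_one, ← ENNReal.ofReal_add s6 zero_le_one]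
          refine ENNReal.ofReal_le_ofReal ?_
          linarith
      calc (∫⁻ θ in Ioc 0 (2 * π), dfc0 M (f (cpt x y + circleMap 0 r θ • c))) + ENNReal.ofReal (2 * π) * 1
          ≤ (∫⁻ _ in Ioc 0 (2 * π), ENNReal.ofReal (M - Real.log (m / 4))) + ENNReal.ofReal (2 * π) * 1 := by
            gcongr with θ
            exact hlow θ
        _ = ENNReal.ofReal (2 * π) * (ENNReal.ofReal (M - Real.log (m / 4)) + 1) := by
            rw [setLIntegral_const, Real.volume_Ioc, sub_zero, mul_add, mul_comm]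
        _ ≤ _ := by gcongr
    · rw [indicator_of_notMem hx, mul_zero, add_zero]
      have han : AnalyticOnNhd ℂ (fun w : ℂ => f (cpt x y + w • c)) (closedBall 0 r) :=
        (line_analytic hUo hf (cpt x y) c).mono hcmem
      have hJ := jensen_lintegral hr han hM0 hbound
      simp only [zero_smul, add_zero] at hJ
      refine le_trans ?_ hJ
      exact lintegral_mono fun θ => dfc0_le _ _


/-- if `f` has no zeros near the slice, the mean function satisfies a mean value inequality -/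
lemma mean_value {G : Set (Fin n → ℝ)} (hG : IsOpen G)
    {f : (Fin n → ℂ) → ℂ} (hfm : Measurable f) (hf : DifferentiableOn ℂ f (tube G))
    {M : ℝ} (hM0 : 0 ≤ M) {p : Fin n → ℝ} {ρ : ℝ} (hp : closedBall p ρ ⊆ G)
    (hM : ∀ z ∈ tube (closedBall p ρ), ‖f z‖ ≤ Real.exp M)
    {φ : (Fin n → ℝ) → ℝ} (hφ : ∀ y ∈ closedBall p ρ, Tendsto (logMean f y) atTop (𝓝 (φ y)))
    {y : Fin n → ℝ} {c : Fin n → ℂ} {r : ℝ} (hr : 0 < r)
    (hball : ∀ w : ℂ, ‖w‖ ≤ 2 * r → y + imPart (w • c) ∈ closedBall p ρ)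
    (hne : ∀ x : Fin n → ℝ, ∀ w : ℂ, ‖w‖ ≤ 2 * r → f (cpt x y + w • c) ≠ 0) :
    ENNReal.ofReal (2 * π) * ENNReal.ofReal (M - φ y) ≤
      ∫⁻ θ in Ioc 0 (2 * π), ENNReal.ofReal (M - φ (y + imPart (circleMap 0 r θ • c))) := by
  have hUo := isOpen_tube hG
  have e0 : imPart (0 : Fin n → ℂ) = 0 := by funext j; simp [imPart]
  have hy : y ∈ closedBall p ρ := by
    have := hball 0 (by rw [norm_zero]; positivity)
    rwa [zero_smul, e0, add_zero] at this
  have hbd : ∀ y' ∈ closedBall p ρ, ∀ x, ‖f (cpt x y')‖ ≤ Real.exp M := by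
    intro y' hy' x
    refine hM _ ?_
    show imPart (cpt x y') ∈ closedBall p ρ
    rw [imPart_cpt]; exact hy'
  have hcirc_norm : ∀ θ : ℝ, ‖circleMap 0 r θ‖ = r := fun θ => by simp [abs_of_pos hr]
  have hcirc : ∀ θ : ℝ, y + imPart (circleMap 0 r θ • c) ∈ closedBall p ρ := fun θ =>
    hball _ (by rw [hcirc_norm]; linarith)
  have hmem : ∀ x : Fin n → ℝ, ∀ w : ℂ, ‖w‖ ≤ 2 * r → cpt x y + w • c ∈ tube (closedBall p ρ) := by
    intro x w hw
    show imPart (cpt x y + w • c) ∈ closedBall p ρ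
    rw [imPart_add, imPart_cpt]; exact hball w hw
  have hbound : ∀ x : Fin n → ℝ, ∀ w ∈ closedBall (0:ℂ) (2 * r), ‖f (cpt x y + w • c)‖ ≤ Real.exp M := by
    intro x w hw
    exact hM _ (hmem x w (by simpa using hw))
  have han : ∀ x : Fin n → ℝ, AnalyticOnNhd ℂ (fun w : ℂ => f (cpt x y + w • c)) (closedBall 0 (2 * r)) := by
    intro x
    refine (line_analytic hUo hf (cpt x y) c).mono fun w hw => ?_
    exact hp (hmem x w (by simpa using hw))
  have hsub : closedBall (0:ℂ) r ⊆ closedBall 0 (2 * r) := closedBall_subset_closedBall (by linarith)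
  set R := r * ‖c‖ with hR
  have hR0 : 0 ≤ R := by positivity
  -- Harnack
  have hharn : ∀ x : Fin n → ℝ, ∀ θ : ℝ, dfc0 M (f (cpt x y + circleMap 0 r θ • c)) ≤ 3 * dfc0 M (f (cpt x y)) := by
    intro x θ
    have := harnack_dfc0 hr (han x) (hbound x) (fun w hw => hne x w (by simpa using hw)) (hcirc_norm θ)
    simpa using this
  have hcomp : ∀ θ t : ℝ, defV f M t (y + imPart (circleMap 0 r θ • c)) ≤ 3 * defV f M (t + R) y := by
    intro θ t
    have h1 := lower_shift f M y (circleMap 0 r θ • c) (norm_circle_smul hr.le θ c).le (t + R)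
    rw [← hR, add_sub_cancel_right] at h1
    refine h1.trans ?_
    have hm : Measurable (fun x : Fin n → ℝ => dfc0 M (f (cpt x y))) :=
      (measurable_dfc0 M).comp (hfm.comp (measurable_cpt_left y))
    unfold defV
    rw [← lintegral_const_mul _ hm]
    exact lintegral_mono fun x => hharn x θ
  -- finiteness
  have hne0 : ∀ x : Fin n → ℝ, f (cpt x y) ≠ 0 := by
    intro x
    have := hne x 0 (by rw [norm_zero]; positivity)
    simpa using this
  have hfin : ∀ t : ℝ, defV f M t y < ⊤ := by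
    intro t
    have hcont : Continuous (fun x : Fin n → ℝ => M - Real.log ‖f (cpt x y)‖) := by
      refine continuous_const.sub ?_
      refine Continuous.log ?_ (fun x => (norm_pos_iff.2 (hne0 x)).ne')
      refine Continuous.norm ?_
      refine hf.continuousOn.comp_continuous (by unfold cpt; fun_prop) fun x => hp ?_
      show imPart (cpt x y) ∈ closedBall p ρ
      rw [imPart_cpt]; exact hy
    have hint : IntegrableOn (fun x : Fin n → ℝ => M - Real.log ‖f (cpt x y)‖) (closedBall 0 (|t| + 1)) :=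
      hcont.continuousOn.integrableOn_compact (isCompact_closedBall _ _)
    have h1 := hint.lintegral_lt_top
    refine lt_of_le_of_lt ?_ h1
    unfold defV dfc0
    refine lintegral_mono_set ?_
    intro x hx
    rw [mem_closedBall, dist_pi_le_iff (by positivity)]
    intro j
    have h2 := hx j
    rw [Real.dist_eq]
    have := le_abs_self t
    linarith
  have hfinc : ∀ θ t : ℝ, defV f M t (y + imPart (circleMap 0 r θ • c)) < ⊤ := fun θ t =>
    (hcomp θ t).trans_lt (ENNReal.mul_lt_top (by simp) (hfin _))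
  -- sequences
  set v : ℕ → ENNReal := fun k => ENNReal.ofReal (2 * π) * (defV f M (k + 0) y / ENNReal.ofReal ((2 * (k:ℝ)) ^ n)) with hv
  set w : ℕ → ENNReal := fun k => ∫⁻ θ in Ioc 0 (2 * π),
    defV f M (k + R) (y + imPart (circleMap 0 r θ • c)) / ENNReal.ofReal ((2 * (k:ℝ)) ^ n) with hw
  have hvlim : Tendsto v atTop (𝓝 (ENNReal.ofReal (2 * π) * ENNReal.ofReal (M - φ y))) := by
    refine ENNReal.Tendsto.const_mul ?_ (Or.inr ENNReal.ofReal_ne_top)
    exact tendsto_defV hfm hM0 (hbd y hy) hfin (hφ y hy) 0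
  have hbnd : ∀ᶠ k : ℕ in atTop, defV f M (k + (R + R)) y / ENNReal.ofReal ((2 * (k:ℝ)) ^ n)
      ≤ ENNReal.ofReal (M - φ y) + 1 := by
    have h1 := tendsto_defV hfm hM0 (hbd y hy) hfin (hφ y hy) (R + R)
    have h2 := h1.eventually_lt_const (ENNReal.lt_add_right ENNReal.ofReal_ne_top one_ne_zero)
    filter_upwards [h2] with k hk
    exact hk.le
  have hwlim : Tendsto w atTop (𝓝 (∫⁻ θ in Ioc 0 (2 * π), ENNReal.ofReal (M - φ (y + imPart (circleMap 0 r θ • c))))) := by
    refine tendsto_lintegral_filter_of_dominated_convergence (fun _ => 3 * (ENNReal.ofReal (M - φ y) + 1)) ?_ ?_ ?_ ?_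
    · exact Eventually.of_forall fun k => (measurable_defV_circle hfm M _ y c r).div_const _
    · filter_upwards [hbnd] with k hk
      refine ae_of_all _ fun θ => ?_
      calc defV f M (k + R) (y + imPart (circleMap 0 r θ • c)) / ENNReal.ofReal ((2 * (k:ℝ)) ^ n)
          ≤ (3 * defV f M (k + R + R) y) / ENNReal.ofReal ((2 * (k:ℝ)) ^ n) := by
            gcongr
            exact hcomp θ _
        _ = 3 * (defV f M (k + (R + R)) y / ENNReal.ofReal ((2 * (k:ℝ)) ^ n)) := by
            rw [add_assoc, mul_div_assoc]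
        _ ≤ _ := by gcongr
    · rw [setLIntegral_const, Real.volume_Ioc]
      refine ENNReal.mul_ne_top (ENNReal.mul_ne_top (by simp) ?_) ENNReal.ofReal_ne_top
      exact ENNReal.add_ne_top.2 ⟨ENNReal.ofReal_ne_top, ENNReal.one_ne_top⟩
    · refine ae_of_all _ fun θ => ?_
      exact tendsto_defV hfm hM0 (hbd _ (hcirc θ)) (hfinc θ) (hφ _ (hcirc θ)) R
  refine le_of_tendsto_of_tendsto' hvlim hwlim fun k => ?_
  have hm2 := measurable_swap hfm M y c r
  have hm : Measurable (fun x : Fin n → ℝ => dfc0 M (f (cpt x y))) :=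
    (measurable_dfc0 M).comp (hfm.comp (measurable_cpt_left y))
  have key : ENNReal.ofReal (2 * π) * defV f M k y ≤
      ∫⁻ θ in Ioc 0 (2 * π), defV f M (k + R) (y + imPart (circleMap 0 r θ • c)) := by
    calc ENNReal.ofReal (2 * π) * defV f M k y
        = ∫⁻ x in cube (k:ℝ) 0, ENNReal.ofReal (2 * π) * dfc0 M (f (cpt x y)) := by
          rw [lintegral_const_mul _ hm]; rfl
      _ = ∫⁻ x in cube (k:ℝ) 0, ∫⁻ θ in Ioc 0 (2 * π), dfc0 M (f (cpt x y + circleMap 0 r θ • c)) := by
          refine lintegral_congr fun x => ?_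
          have := harm_lintegral hr ((han x).mono hsub) (fun w hw => hbound x w (hsub hw))
            (fun w hw => hne x w (by simpa using hsub hw))
          simpa using this
      _ = ∫⁻ θ in Ioc 0 (2 * π), ∫⁻ x in cube (k:ℝ) 0, dfc0 M (f (cpt x y + circleMap 0 r θ • c)) :=
          lintegral_lintegral_swap hm2.aemeasurable
      _ ≤ _ := lintegral_mono fun θ => upper_shift f M y _ (norm_circle_smul hr.le θ c).le k
  simp only [hv, hw, add_zero, div_eq_mul_inv]
  rw [lintegral_mul_const _ (measurable_defV_circle hfm M _ y c r), ← mul_assoc]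
  gcongr


lemma imPart_smul_apply_zero (w : ℂ) (c : Fin n → ℂ) {i : Fin n} (h : c i = 0) : imPart (w • c) i = 0 := by
  simp [imPart, h]

/-- zeros over the region where the `a`-th coordinate dominates fill the slice of fixed `a`-th coordinate -/
lemma claimZ {G : Set (Fin n → ℝ)} (hG : IsOpen G) (hGc : Convex ℝ G)
    {f : (Fin n → ℂ) → ℂ} (hfm : Measurable f) (hf : DifferentiableOn ℂ f (tube G))
    {z₁ : Fin n → ℂ} (hz₁ : z₁ ∈ tube G) (hf₁ : f z₁ ≠ 0)
    {M : ℝ} (hM0 : 0 ≤ M) {p : Fin n → ℝ} {ρ : ℝ} (hp : closedBall p ρ ⊆ G)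
    (hM : ∀ z ∈ tube (closedBall p ρ), ‖f z‖ ≤ Real.exp M)
    (hap : ∀ ε : ℝ, 0 < ε → ∃ l : ℝ, 0 < l ∧ ∀ a : Fin n → ℝ, ∃ h ∈ cube l a,
      ∀ z ∈ tube (closedBall p ρ), ‖f (z + cpt h 0) - f z‖ ≤ ε)
    {φ : (Fin n → ℝ) → ℝ} (hφ : ∀ y ∈ closedBall p ρ, Tendsto (logMean f y) atTop (𝓝 (φ y)))
    {a b : Fin n} (hφ' : ∀ y, φ y = max ((y a - p a) ^ 2) ((y b - p b) ^ 2))
    {z₀ : Fin n → ℂ} (hz₀ : z₀ ∈ tube (ball p ρ)) (h0 : f z₀ = 0)
    (hdom : |(z₀ b).im - p b| < |(z₀ a).im - p a|) {z : Fin n → ℂ} (hz : z ∈ tube (ball p ρ))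
    (hza : z a = z₀ a) : f z = 0 := by
  set c : Fin n → ℂ := z - z₀ with hc
  have hca : c a = 0 := by simp [hc, hza]
  set g := |(z₀ a).im - p a| - |(z₀ b).im - p b| with hg
  have hgpos : 0 < g := by rw [hg]; linarith
  set δ₀ := g / (4 * (‖c‖ + 1)) with hδ₀
  have hcpos : 0 < ‖c‖ + 1 := by positivity
  have hδ₀pos : 0 < δ₀ := by positivity
  have hδ₀1 : δ₀ * (4 * (‖c‖ + 1)) = g := by
    rw [hδ₀]; field_simp
  have hsub : tube (ball p ρ) ⊆ tube G := fun z hz => hp (ball_subset_closedBall hz)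
  have hprop := propagate hG hGc hfm hf hz₁ hf₁ hM0 hp hM hap hφ hz₀ h0 (c := c) hδ₀pos (by
    intro y hy w hw
    rw [mem_ball, dist_pi_lt_iff hδ₀pos] at hy
    have ha := hy a
    have hb := hy b
    rw [Real.dist_eq] at ha hb
    have ea : (y + imPart (w • c)) a = y a := by
      rw [Pi.add_apply, imPart_smul_apply_zero w c hca, add_zero]
    have hwb : |imPart (w • c) b| ≤ δ₀ * ‖c‖ := by
      calc |imPart (w • c) b| ≤ ‖imPart (w • c)‖ := norm_le_pi_norm (imPart (w • c)) b
        _ ≤ ‖w • c‖ := norm_imPart_le _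
        _ = ‖w‖ * ‖c‖ := norm_smul _ _
        _ ≤ δ₀ * ‖c‖ := mul_le_mul_of_nonneg_right hw.le (norm_nonneg _)
    have e1 : |(z₀ a).im - p a| ≤ |y a - p a| + δ₀ := by
      have h1 : (z₀ a).im - p a = (y a - p a) - (y a - imPart z₀ a) := by simp [imPart]
      rw [h1]
      have := abs_sub (y a - p a) (y a - imPart z₀ a)
      linarith
    have e2 : |y b - p b| ≤ |(z₀ b).im - p b| + δ₀ := by
      have h1 : y b - p b = ((z₀ b).im - p b) + (y b - imPart z₀ b) := by simp [imPart]
      rw [h1]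
      have := abs_add_le ((z₀ b).im - p b) (y b - imPart z₀ b)
      linarith
    have e3 : |(y + imPart (w • c)) b - p b| ≤ |(z₀ b).im - p b| + δ₀ + δ₀ * ‖c‖ := by
      have h1 : (y + imPart (w • c)) b - p b = (y b - p b) + imPart (w • c) b := by
        rw [Pi.add_apply]; ring
      rw [h1]
      have := abs_add_le (y b - p b) (imPart (w • c) b)
      linarith
    have e4 : |y b - p b| ≤ |y a - p a| := by nlinarith [norm_nonneg c]
    have e5 : |(y + imPart (w • c)) b - p b| ≤ |y a - p a| := by nlinarith [norm_nonneg c]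
    rw [hφ', hφ', ea, max_eq_left (sq_le_sq.2 e5), max_eq_left (sq_le_sq.2 e4)])
  have hid := identity_line (isOpen_tube (isOpen_ball (x := p) (ε := ρ))) (convex_tube (convex_ball p ρ))
    (hf.mono hsub) (z := z₀) (c := c) hz₀ (by simpa [hc] using hz) hprop
  simpa [hc] using hid

lemma integral_model (M u r : ℝ) :
    ∫ θ in (0:ℝ)..(2 * π), (M - (u + r * Real.sin θ) ^ 2) = 2 * π * (M - u ^ 2) - π * r ^ 2 := by
  have e : ∀ θ : ℝ, M - (u + r * Real.sin θ) ^ 2 = (M - u ^ 2) - (2 * u * r) * Real.sin θ - r ^ 2 * Real.sin θ ^ 2 := by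
    intro θ; ring
  simp_rw [e]
  rw [intervalIntegral.integral_sub, intervalIntegral.integral_sub, intervalIntegral.integral_const_mul,
    intervalIntegral.integral_const_mul, integral_sin, integral_sin_sq, intervalIntegral.integral_const]
  · simp
    ring
  all_goals
    apply Continuous.intervalIntegrable
    fun_prop

/-- no almost periodic holomorphic function has the mean function `max ((y_i-p_i)^2, (y_j-p_j)^2)` -/
lemma no_function {G : Set (Fin n → ℝ)} (hG : IsOpen G) (hGc : Convex ℝ G)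
    {f : (Fin n → ℂ) → ℂ} (hfm : Measurable f) (hf : DifferentiableOn ℂ f (tube G))
    {z₁ : Fin n → ℂ} (hz₁ : z₁ ∈ tube G) (hf₁ : f z₁ ≠ 0) {p : Fin n → ℝ} (hpG : p ∈ G)
    (hap : ∀ ε : ℝ, 0 < ε → ∀ E : Set (Fin n → ℝ), IsCompact E → E ⊆ G → ∃ l : ℝ, 0 < l ∧
      ∀ a : Fin n → ℝ, ∃ h ∈ cube l a, ∀ z ∈ tube E, ‖f (z + cpt h 0) - f z‖ ≤ ε)
    {i j : Fin n} (hij : i ≠ j)
    (hφ : ∀ y ∈ G, Tendsto (logMean f y) atTop (𝓝 (max ((y i - p i) ^ 2) ((y j - p j) ^ 2)))) : False := by
  obtain ⟨ρ, hρ, hρG⟩ : ∃ ρ : ℝ, 0 < ρ ∧ closedBall p ρ ⊆ G := by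
    obtain ⟨ε, hε, h⟩ := Metric.isOpen_iff.1 hG p hpG
    exact ⟨ε / 2, by positivity, (closedBall_subset_ball (by linarith)).trans h⟩
  have hUo := isOpen_tube hG
  -- boundedness
  obtain ⟨M, hM0, hMρ, hM⟩ : ∃ M : ℝ, 0 ≤ M ∧ ρ ^ 2 + 1 ≤ M ∧ ∀ z ∈ tube (closedBall p ρ), ‖f z‖ ≤ Real.exp M := by
    obtain ⟨l, hl, hlh⟩ := hap 1 one_pos (closedBall p ρ) (isCompact_closedBall _ _) hρG
    have hK : IsCompact ((fun q : (Fin n → ℝ) × (Fin n → ℝ) => cpt q.1 q.2) ''
        (closedBall (0 : Fin n → ℝ) l ×ˢ closedBall p ρ)) :=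
      ((isCompact_closedBall _ _).prod (isCompact_closedBall _ _)).image continuous_cpt
    have hKU : ((fun q : (Fin n → ℝ) × (Fin n → ℝ) => cpt q.1 q.2) ''
        (closedBall (0 : Fin n → ℝ) l ×ˢ closedBall p ρ)) ⊆ tube G := by
      rintro _ ⟨q, hq, rfl⟩
      show imPart (cpt q.1 q.2) ∈ G
      rw [imPart_cpt]; exact hρG hq.2
    obtain ⟨C, hC⟩ := hK.exists_bound_of_continuousOn (hf.continuousOn.mono hKU)
    refine ⟨max (ρ ^ 2 + 1) (|C| + 1), ?_, le_max_left _ _, ?_⟩
    · exact le_trans (by positivity) (le_max_left _ _)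
    · intro z hz
      obtain ⟨h, hh1, hh2⟩ := hlh (-(rePart z))
      have h1 := hh2 z hz
      have h2 : ‖f (z + cpt h 0)‖ ≤ C := by
        refine hC _ ⟨(rePart (z + cpt h 0), imPart (z + cpt h 0)), ⟨?_, ?_⟩, cpt_eta (z + cpt h 0)⟩
        · rw [mem_closedBall, dist_pi_le_iff hl.le]
          intro j
          have h3 := hh1 j
          rw [rePart_add, rePart_cpt, Real.dist_eq]
          simp only [Pi.neg_apply, sub_neg_eq_add, Pi.add_apply, Pi.zero_apply, sub_zero] at h3 ⊢
          rw [add_comm]; exact h3.le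
        · show imPart (z + cpt h 0) ∈ closedBall p ρ
          rw [imPart_add, imPart_cpt, add_zero]; exact hz
      have h3 : ‖f z‖ ≤ C + 1 := by
        have := norm_sub_norm_le (f z) (f (z + cpt h 0))
        rw [norm_sub_rev] at this
        linarith
      have h4 := Real.add_one_le_exp (max (ρ ^ 2 + 1) (|C| + 1))
      have h5 := le_max_right (ρ ^ 2 + 1) (|C| + 1)
      have h6 := le_abs_self C
      linarith
  have hap' := fun ε hε => hap ε hε (closedBall p ρ) (isCompact_closedBall _ _) hρG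
  set φ : (Fin n → ℝ) → ℝ := fun y => max ((y i - p i) ^ 2) ((y j - p j) ^ 2) with hφdef
  have hφ1 : ∀ y ∈ closedBall p ρ, Tendsto (logMean f y) atTop (𝓝 (φ y)) := fun y hy => hφ y (hρG hy)
  have hcoord : ∀ {z : Fin n → ℂ}, z ∈ tube (ball p ρ) → ∀ k, |(z k).im - p k| < ρ := by
    intro z hz k
    have h1 : imPart z ∈ ball p ρ := hz
    rw [mem_ball, dist_pi_lt_iff hρ] at h1
    exact h1 k
  have hcoord' : ∀ {z : Fin n → ℂ}, (∀ k, |(z k).im - p k| < ρ) → z ∈ tube (ball p ρ) := by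
    intro z hz
    show imPart z ∈ ball p ρ
    rw [mem_ball, dist_pi_lt_iff hρ]
    exact hz
  -- no zeros over the region where the `i`-th coordinate dominates
  have hzf : ∀ z ∈ tube (ball p ρ), |(z j).im - p j| < |(z i).im - p i| → f z ≠ 0 := by
    intro z₀ hz₀ hdom h0
    have hstep : ∀ ζ ∈ tube (ball p ρ), |(z₀ i).im - p i| < |(ζ j).im - p j| → f ζ = 0 := by
      intro ζ hζ hζj
      set z : Fin n → ℂ := Function.update ζ i (z₀ i) with hz
      have hzi : z i = z₀ i := by simp [hz]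
      have hzj : z j = ζ j := by simp [hz, hij.symm]
      have hzmem : z ∈ tube (ball p ρ) := by
        refine hcoord' fun k => ?_
        by_cases hk : k = i
        · subst hk; rw [hzi]; exact hcoord hz₀ k
        · have : z k = ζ k := by simp [hz, hk]
          rw [this]; exact hcoord hζ k
      have hfz : f z = 0 := claimZ hG hGc hfm hf hz₁ hf₁ hM0 hρG hM hap' hφ1 (a := i) (b := j)
        (fun y => rfl) hz₀ h0 hdom hzmem hzi
      refine claimZ hG hGc hfm hf hz₁ hf₁ hM0 hρG hM hap' hφ1 (a := j) (b := i)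
        (fun y => max_comm _ _) hzmem hfz ?_ hζ hzj.symm
      rw [hzi, hzj]; exact hζj
    -- a point of the open set where `f` vanishes
    set s := (|(z₀ i).im - p i| + ρ) / 2 with hs
    have hs1 : |(z₀ i).im - p i| < s := by
      have := hcoord hz₀ i
      rw [hs]; linarith
    have hs2 : s < ρ := by
      have := hcoord hz₀ i
      rw [hs]; linarith
    have hs0 : 0 < s := lt_of_le_of_lt (abs_nonneg _) hs1
    set ζ₀ : Fin n → ℂ := cpt 0 (fun k => p k + if k = j then s else 0) with hζ₀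
    have hζ₀k : ∀ k, (ζ₀ k).im - p k = if k = j then s else 0 := by
      intro k
      have : (ζ₀ k).im = imPart ζ₀ k := rfl
      rw [this, hζ₀, imPart_cpt]; ring
    have hζ₀mem : ζ₀ ∈ tube (ball p ρ) := by
      refine hcoord' fun k => ?_
      rw [hζ₀k]
      split_ifs
      · rw [abs_of_pos hs0]; exact hs2
      · rw [abs_zero]; exact hρ
    have hWopen : IsOpen (tube (ball p ρ) ∩ {ζ : Fin n → ℂ | |(z₀ i).im - p i| < |(ζ j).im - p j|}) := by
      refine (isOpen_tube isOpen_ball).inter ?_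
      refine isOpen_lt continuous_const ?_
      exact ((Complex.continuous_im.comp (continuous_apply j)).sub continuous_const).abs
    obtain ⟨δ, hδ, hδW⟩ := Metric.isOpen_iff.1 hWopen ζ₀ ⟨hζ₀mem, by
      show |(z₀ i).im - p i| < |(ζ₀ j).im - p j|
      rw [hζ₀k, if_pos rfl, abs_of_pos hs0]; exact hs1⟩
    obtain ⟨z', hz', hne⟩ := exists_ne_zero_near hUo (convex_tube hGc) hf hz₁ hf₁
      (hρG (ball_subset_closedBall hζ₀mem)) hδ
    exact hne (hstep z' (hδW hz').1 (hδW hz').2)
  -- mean value contradiction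
  set y : Fin n → ℝ := fun k => p k + if k = i then ρ / 2 else 0 with hy
  set c : Fin n → ℂ := Pi.single i 1 with hc
  have hyi : y i - p i = ρ / 2 := by simp [hy]
  have hyj : y j - p j = 0 := by simp [hy, hij.symm]
  have him : ∀ w : ℂ, ∀ k, (y + imPart (w • c)) k - p k = if k = i then ρ / 2 + w.im else 0 := by
    intro w k
    by_cases hk : k = i
    · subst hk; simp [hy, hc, imPart]; ring
    · simp [hy, hc, imPart, hk]
  have hr : 0 < ρ / 8 := by positivity
  have hwim : ∀ w : ℂ, ‖w‖ ≤ 2 * (ρ / 8) → |w.im| ≤ ρ / 4 := by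
    intro w hw
    have := Complex.abs_im_le_norm w
    linarith
  have hmem : ∀ w : ℂ, ‖w‖ ≤ 2 * (ρ / 8) → y + imPart (w • c) ∈ ball p ρ := by
    intro w hw
    rw [mem_ball, dist_pi_lt_iff hρ]
    intro k
    rw [Real.dist_eq, him]
    have := abs_le.1 (hwim w hw)
    split_ifs
    · rw [abs_lt]; constructor <;> linarith [this.1, this.2]
    · rw [abs_zero]; exact hρ
  have hmv := mean_value hG hfm hf hM0 hρG hM hφ1 (y := y) (c := c) hr
    (fun w hw => ball_subset_closedBall (hmem w hw)) (by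
      intro x w hw
      have e : imPart (cpt x y + w • c) = y + imPart (w • c) := by rw [imPart_add, imPart_cpt]
      have ek : ∀ k, ((cpt x y + w • c) k).im = (y + imPart (w • c)) k := fun k => congrFun e k
      refine hzf _ ?_ ?_
      · show imPart (cpt x y + w • c) ∈ ball p ρ
        rw [e]; exact hmem w hw
      · rw [ek, ek, him, him, if_neg hij.symm, if_pos rfl, abs_zero, abs_pos]
        have := abs_le.1 (hwim w hw)
        intro h
        linarith [this.1])
  -- evaluate both sides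
  have hφy : φ y = (ρ / 2) ^ 2 := by
    simp only [hφdef]
    rw [hyi, hyj]
    refine max_eq_left ?_
    rw [zero_pow two_ne_zero]
    positivity
  have hφc : ∀ θ : ℝ, φ (y + imPart (circleMap 0 (ρ / 8) θ • c)) = (ρ / 2 + ρ / 8 * Real.sin θ) ^ 2 := by
    intro θ
    simp only [hφdef]
    rw [him, him, if_pos rfl, if_neg hij.symm]
    have : (circleMap 0 (ρ / 8) θ).im = ρ / 8 * Real.sin θ := by
      simp [circleMap, Complex.exp_im]
    rw [this]
    refine max_eq_left ?_
    rw [zero_pow two_ne_zero]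
    positivity
  simp_rw [hφc] at hmv
  rw [hφy] at hmv
  have hpi : 0 < 2 * π := by positivity
  have hnn : ∀ θ : ℝ, 0 ≤ M - (ρ / 2 + ρ / 8 * Real.sin θ) ^ 2 := by
    intro θ
    have h1 := Real.sin_le_one θ
    have h2 := Real.neg_one_le_sin θ
    have h3 : |ρ / 2 + ρ / 8 * Real.sin θ| ≤ ρ := by
      rw [abs_le]; constructor <;> nlinarith
    have h4 : (ρ / 2 + ρ / 8 * Real.sin θ) ^ 2 ≤ ρ ^ 2 := by
      rw [← sq_abs]
      exact pow_le_pow_left₀ (abs_nonneg _) h3 2
    linarith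
  have hint : IntegrableOn (fun θ : ℝ => M - (ρ / 2 + ρ / 8 * Real.sin θ) ^ 2) (Ioc 0 (2 * π)) := by
    have : IntervalIntegrable (fun θ : ℝ => M - (ρ / 2 + ρ / 8 * Real.sin θ) ^ 2) volume 0 (2 * π) := by
      apply Continuous.intervalIntegrable
      fun_prop
    rwa [intervalIntegrable_iff_integrableOn_Ioc_of_le hpi.le] at this
  rw [← ofReal_integral_eq_lintegral_ofReal hint (ae_of_all _ hnn),
    ← intervalIntegral.integral_of_le hpi.le, integral_model, ← ENNReal.ofReal_mul hpi.le,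
    ENNReal.ofReal_le_ofReal_iff'] at hmv
  have hπ := Real.pi_pos
  rcases hmv with h | h
  · have : 0 < π * (ρ / 8) ^ 2 := by positivity
    linarith
  · have h1 : 0 < M - (ρ / 2) ^ 2 := by nlinarith
    have h2 : 0 < 2 * π * (M - (ρ / 2) ^ 2) := by positivity
    linarith


lemma convexOn_model (G : Set (Fin n → ℝ)) (hG : Convex ℝ G) (p : Fin n → ℝ) (i j : Fin n) :
    ConvexOn ℝ G (fun y => max ((y i - p i) ^ 2) ((y j - p j) ^ 2)) := by
  have h : ∀ k : Fin n, ConvexOn ℝ G (fun y : Fin n → ℝ => (y k - p k) ^ 2) := by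
    intro k
    refine ⟨hG, ?_⟩
    intro x _ y _ a b ha hb hab
    simp only [Pi.add_apply, Pi.smul_apply, smul_eq_mul]
    have hb' : b = 1 - a := by linarith
    subst hb'
    nlinarith [mul_nonneg ha hb, sq_nonneg (x k - y k), mul_nonneg (mul_nonneg ha hb) (sq_nonneg (x k - y k))]
  exact (h i).sup (h j)

lemma not_affine_model (p : Fin n → ℝ) (i j : Fin n) (U : Set (Fin n → ℝ)) (hU : IsOpen U) (hne : U.Nonempty) :
    ¬ ∃ (A : (Fin n → ℝ) →ₗ[ℝ] ℝ) (b : ℝ), ∀ y ∈ U, max ((y i - p i) ^ 2) ((y j - p j) ^ 2) = A y + b := by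
  rintro ⟨A, b, hA⟩
  obtain ⟨y, hy⟩ := hne
  have hcont : Continuous (fun t : ℝ => y + t • (1 : Fin n → ℝ)) := by fun_prop
  have hcont' : Continuous (fun t : ℝ => y - t • (1 : Fin n → ℝ)) := by fun_prop
  have h1 : ∀ᶠ t : ℝ in 𝓝 0, y + t • (1 : Fin n → ℝ) ∈ U :=
    hcont.continuousAt.eventually_mem (hU.mem_nhds (by simpa using hy))
  have h2 : ∀ᶠ t : ℝ in 𝓝 0, y - t • (1 : Fin n → ℝ) ∈ U :=
    hcont'.continuousAt.eventually_mem (hU.mem_nhds (by simpa using hy))
  obtain ⟨ε, hε, h⟩ := Metric.eventually_nhds_iff.1 (h1.and h2)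
  obtain ⟨ht1, ht2⟩ := h (y := ε / 2) (by rw [Real.dist_eq, sub_zero, abs_of_pos (by positivity)]; linarith)
  have e0 := hA y hy
  have e1 := hA _ ht1
  have e2 := hA _ ht2
  rw [map_add] at e1
  rw [map_sub] at e2
  simp only [Pi.add_apply, Pi.sub_apply, Pi.smul_apply, Pi.one_apply, smul_eq_mul, mul_one] at e1 e2
  have hεpos : 0 < (ε / 2) ^ 2 := by positivity
  rcases le_total ((y i - p i) ^ 2) ((y j - p j) ^ 2) with hle | hle
  · rw [max_eq_right hle] at e0
    have a1 := le_max_right ((y i + ε / 2 - p i) ^ 2) ((y j + ε / 2 - p j) ^ 2)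
    have a2 := le_max_right ((y i - ε / 2 - p i) ^ 2) ((y j - ε / 2 - p j) ^ 2)
    nlinarith
  · rw [max_eq_left hle] at e0
    have a1 := le_max_left ((y i + ε / 2 - p i) ^ 2) ((y j + ε / 2 - p j) ^ 2)
    have a2 := le_max_left ((y i - ε / 2 - p i) ^ 2) ((y j - ε / 2 - p j) ^ 2)
    nlinarith

lemma not_isJessen_model {G : Set (Fin n → ℝ)} (hG : IsOpen G) (hGc : Convex ℝ G) {p : Fin n → ℝ} (hp : p ∈ G)
    {i j : Fin n} (hij : i ≠ j) : ¬ IsJessen G (fun y => max ((y i - p i) ^ 2) ((y j - p j) ^ 2)) := by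
  rintro ⟨f, ⟨hf, hap⟩, ⟨z₁, hz₁, hf₁⟩, hlim⟩
  classical
  have hUo := isOpen_tube hG
  set F : (Fin n → ℂ) → ℂ := (tube G).piecewise f (fun _ => 0) with hF
  have hFeq : ∀ z ∈ tube G, F z = f z := fun z hz => piecewise_eq_of_mem _ _ _ hz
  have hFm : Measurable F :=
    ContinuousOn.measurable_piecewise hf.continuousOn continuousOn_const hUo.measurableSet
  have hFd : DifferentiableOn ℂ F (tube G) := hf.congr hFeq
  have hcptG : ∀ y ∈ G, ∀ x : Fin n → ℝ, cpt x y ∈ tube G := by
    intro y hy x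
    show imPart (cpt x y) ∈ G
    rw [imPart_cpt]; exact hy
  refine no_function hG hGc hFm hFd hz₁ (by rw [hFeq z₁ hz₁]; exact hf₁) hp ?_ hij ?_
  · intro ε hε E hE hEG
    have hcl : closure E = E := hE.isClosed.closure_eq
    obtain ⟨l, hl, hlh⟩ := hap ε hε E (by rw [hcl]; exact hE) (by rw [hcl]; exact hEG)
    refine ⟨l, hl, fun a => ?_⟩
    obtain ⟨h, hh1, hh2⟩ := hlh a
    refine ⟨h, hh1, fun z hz => ?_⟩
    have hzG : z ∈ tube G := hEG hz
    have e1 : z + cpt h 0 = fun j => z j + (h j : ℂ) := by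
      funext j; simp [cpt]
    have hzh : z + cpt h 0 ∈ tube G := by
      show imPart (z + cpt h 0) ∈ G
      rw [imPart_add, imPart_cpt, add_zero]; exact hzG
    rw [hFeq z hzG, hFeq _ hzh, e1]
    have h3 : ‖f (fun j => z j + (h j : ℂ)) - f z‖ₑ ≤
        tubeNorm (fun z => f (fun j => z j + (h j : ℂ)) - f z) E := by
      unfold tubeNorm
      exact le_iSup₂ (f := fun (z : Fin n → ℂ) (_ : z ∈ tube E) => ‖f (fun j => z j + (h j : ℂ)) - f z‖ₑ) z hz
    have h4 := (h3.trans_lt hh2).le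
    rw [← ofReal_norm, ENNReal.ofReal_le_ofReal_iff hε.le] at h4
    exact h4
  · intro y hy
    refine (hlim y hy).congr fun t => ?_
    unfold logMean
    congr 1
    refine integral_congr_ae (ae_of_all _ fun x => ?_)
    have e : (fun j => (x j : ℂ) + (y j : ℂ) * Complex.I) = cpt x y := rfl
    simp only [e]
    rw [hFeq _ (hcptG y hy x)]

/-- Sanity check: every coordinate function is a Jessen function, that of `exp (-i z_k)`. -/
lemma isJessen_coord (G : Set (Fin n → ℝ)) (hGne : G.Nonempty) (k : Fin n) : IsJessen G (fun y => y k) := by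
  refine ⟨fun z => Complex.exp (-Complex.I * z k), ⟨?_, ?_⟩, ?_, ?_⟩
  · have : Differentiable ℂ (fun z : Fin n → ℂ => Complex.exp (-Complex.I * z k)) := by fun_prop
    exact this.differentiableOn
  · intro ε hε E _ _
    refine ⟨2 * π + 1, by positivity, fun a => ?_⟩
    refine ⟨fun j => if j = k then 2 * π * round (a k / (2 * π)) else a j, ?_, ?_⟩
    · intro j
      by_cases hj : j = k
      · subst hj
        simp only [if_true]
        have h1 := abs_sub_round (a j / (2 * π))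
        have hpi : 0 < 2 * π := by positivity
        have e : 2 * π * (round (a j / (2 * π)) : ℝ) - a j = -(2 * π) * (a j / (2 * π) - round (a j / (2 * π))) := by
          field_simp; ring
        rw [e, abs_mul, abs_neg, abs_of_pos hpi]
        nlinarith
      · simp only [hj, if_false, sub_self, abs_zero]; positivity
    · have hz : ∀ z : Fin n → ℂ, Complex.exp (-Complex.I * (z k + ((2 * π * round (a k / (2 * π)) : ℝ) : ℂ)))
          - Complex.exp (-Complex.I * z k) = 0 := by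
        intro z
        rw [sub_eq_zero, Complex.exp_eq_exp_iff_exists_int]
        refine ⟨-(round (a k / (2 * π))), ?_⟩
        push_cast
        ring
      unfold tubeNorm
      simp only [if_true]
      refine lt_of_le_of_lt (iSup₂_le fun z _ => ?_) (ENNReal.ofReal_pos.2 hε)
      rw [hz z, enorm_zero]
  · obtain ⟨y, hy⟩ := hGne
    refine ⟨cpt 0 y, ?_, Complex.exp_ne_zero _⟩
    show imPart (cpt 0 y) ∈ G
    rw [imPart_cpt]; exact hy
  · intro y _
    refine tendsto_const_nhds.congr' ?_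
    filter_upwards [eventually_gt_atTop 0] with t ht
    have e : ∀ x : Fin n → ℝ, Real.log ‖Complex.exp (-Complex.I * ((x k : ℂ) + (y k : ℂ) * Complex.I))‖ = y k := by
      intro x
      rw [Complex.norm_exp, Real.log_exp]
      simp
    simp only [e]
    rw [integral_const, measureReal_restrict_apply MeasurableSet.univ, univ_inter, measureReal_def, volume_cube ht,
      ENNReal.toReal_ofReal (by positivity), smul_eq_mul]
    have : (2 * t) ^ n ≠ 0 := by positivity
    field_simp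

/-- Negative answer to Q2 in every dimension `n ≥ 2` and on every convex domain `G`. -/
theorem result : ∀ n : ℕ, 2 ≤ n → ∀ G : Set (Fin n → ℝ), IsOpen G → Convex ℝ G → G.Nonempty →
    ∃ φ : (Fin n → ℝ) → ℝ, ConvexOn ℝ G φ ∧
      (∀ U : Set (Fin n → ℝ), IsOpen U → U.Nonempty → U ⊆ G →
        ¬ ∃ (A : (Fin n → ℝ) →ₗ[ℝ] ℝ) (b : ℝ), ∀ y ∈ U, φ y = A y + b) ∧
      ¬ IsJessen G φ := by
  intro n hn G hG hGc hGne
  obtain ⟨p, hp⟩ := hGne
  set i : Fin n := ⟨0, by omega⟩ with hi
  set j : Fin n := ⟨1, by omega⟩ with hj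
  have hij : i ≠ j := by
    rw [hi, hj]; simp
  exact ⟨fun y => max ((y i - p i) ^ 2) ((y j - p j) ^ 2), convexOn_model G hGc p i j,
    fun U hU hne _ => not_affine_model p i j U hU hne, not_isJessen_model hG hGc hp hij⟩

end Pool.Agent.Results.MP_5c297c_an.NotJessen
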